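import Pool.Agent.Lib.MP_751085_ag.ZF.B.Gal1
import Pool.Agent.Lib.MP_751085_ag.ZF.A2b

/-! Towers of Galois extensions and coverings. -/

namespace Pool.Agent.ZFd

open scoped Classical Pool.Agent.ZCy.F
open groupCohomology
open Pool.Agent.ZCy (dd pull cl)
open Pool.Agent.ZCy.F (BR SC cls rs UC Loc)

variable {F F' : Type} [Field F] [Field F'] {O : Subring F} {L L' : Lv F} {B : Subring L.E}
  {B' : Subring L'.E}

/-- `ZCy.F.exists_pull` -/
theorem Lv.exists_r (L : Lv F) (L' : Lv F') {φ : F →+* F'} {j : L.E →+* L'.E}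
    (hj : ∀ a, j (L.i a) = L'.i (φ a)) : ∃ r : L'.G → L.G, ∀ g x, j (r g x) = g (j x) := by
  obtain ⟨r, hr⟩ := ZCy.F.exists_lk_of (K := F) (K' := F') hj
  exact ⟨r, hr.comm⟩

/-- embed `L.E` into `SC F'` (`IsSepClosed.lift`), `ZCy.F.exists_level` for the image of a basis -/
theorem Lv.exists_over (L : Lv F) (φ : F →+* F') :
    ∃ (L' : Lv F') (j : L.E →+* L'.E), ∀ a, j (L.i a) = L'.i (φ a) := by
  let : Algebra F (SC F') := ((algebraMap F' (SC F')).comp φ).toAlgebra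
  let j : L.E →ₐ[F] SC F' := IsSepClosed.lift
  let b := Module.finBasis F L.E
  obtain ⟨E, h1, h2, h3⟩ := ZCy.F.exists_level (K := F') (Finset.univ.image fun i => j (b i))
  have h4 : ∀ x, (j : L.E →+* SC F') x ∈ E := fun x => by
    rw [← b.sum_repr x, map_sum]
    refine sum_mem fun i _ => ?_
    rw [Algebra.smul_def, map_mul]
    exact mul_mem ((j.commutes _).symm ▸ E.algebraMap_mem (φ _))
      (h3 _ (Finset.mem_image_of_mem _ (Finset.mem_univ i)))
  exact ⟨⟨E⟩, (j : L.E →+* SC F').codRestrict E h4, fun a => Subtype.ext (j.commutes a)⟩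

theorem gal3_gen {Ω : Type} [Field Ω] [Algebra F Ω] [IsGalois F Ω] (s : Set Ω)
    (E : IntermediateField F Ω) [FiniteDimensional F E] (h : s ⊆ E)
    (st : ∀ σ : Ω ≃ₐ[F] Ω, ∀ x ∈ s, σ x ∈ s) : ∃ (L : Lv F) (v : L.E →ₐ[F] Ω), s ⊆ v.fieldRange ∧
      ∀ g : L.G, (∀ y, v y ∈ s → g y = y) → g = 1 := by
  have h0 : IntermediateField.adjoin F s ≤ E := IntermediateField.adjoin_le_iff.2 h
  have h1 : FiniteDimensional F (IntermediateField.adjoin F s) :=
    FiniteDimensional.of_injective (IntermediateField.inclusion h0).toLinearMap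
      (IntermediateField.inclusion_injective h0)
  have h2 : Normal F (IntermediateField.adjoin F s) :=
    IntermediateField.normal_iff_forall_map_le'.2 fun σ => by
      rw [IntermediateField.adjoin_map]
      exact IntermediateField.adjoin.mono _ _ _ (Set.image_subset_iff.2 (st σ))
  have h3 : IsGalois F (IntermediateField.adjoin F s) := {}
  have h4 : ∀ g : IntermediateField.adjoin F s ≃ₐ[F] IntermediateField.adjoin F s,
      (∀ y : IntermediateField.adjoin F s, y.1 ∈ s → g y = y) → g = 1 := fun g hg =>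
    AlgEquiv.ext (AlgHom.congr_fun (IntermediateField.adjoin_algHom_ext F
      (φ₁ := g.toAlgHom) (φ₂ := AlgHom.id F _) fun x hx => hg _ hx))
  exact ⟨⟨IntermediateField.adjoin F s⟩, IntermediateField.val _,
    fun x hx => ⟨⟨x, IntermediateField.subset_adjoin F s hx⟩, rfl⟩, h4⟩

theorem gal3_lift {L L' : Lv F} {j : L.E →ₐ[F] SC F} {v : L'.E →ₐ[F] SC F}
    (h : ∀ x, j x ∈ v.fieldRange) : ∃ k : L.E →ₐ[F] L'.E, ∀ x, v (k x) = j x :=
  ⟨((AlgEquiv.ofInjectiveField v).symm : _ →ₐ[F] _).comp (j.codRestrict v.range h), fun x =>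
    congrArg Subtype.val ((AlgEquiv.ofInjectiveField v).apply_symm_apply ⟨j x, h x⟩)⟩

theorem gal3_fin (j : L.E →ₐ[F] SC F) : FiniteDimensional F j.fieldRange :=
  (AlgEquiv.ofInjectiveField j).toLinearEquiv.finiteDimensional

theorem gal3_r (j : L.E →ₐ[F] SC F) (σ : SC F ≃ₐ[F] SC F) : ∃ g : L.G, ∀ x, j (g x) = σ (j x) := by
  obtain ⟨r, hr⟩ := ZCy.F.exists_lk_of (K := F) (K' := F) (γ := RingHom.id F)
    (j := (j : L.E →+* SC F)) j.commutes
  exact ⟨r σ, hr.comm σ⟩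

/-- the compositum -/
theorem Lv.common (L L' : Lv F) : ∃ (L'' : Lv F) (j : L.E →ₐ[F] L''.E) (j' : L'.E →ₐ[F] L''.E),
    ∀ g : L''.G, (∀ x, g (j x) = j x) → (∀ x, g (j' x) = j' x) → g = 1 := by
  let j : L.E →ₐ[F] SC F := IsSepClosed.lift
  let j' : L'.E →ₐ[F] SC F := IsSepClosed.lift
  have := gal3_fin j
  have := gal3_fin j'
  obtain ⟨L'', v, h1, h2⟩ := gal3_gen (Set.range j ∪ Set.range j') (j.fieldRange ⊔ j'.fieldRange)
    (Set.union_subset (le_sup_left (a := j.fieldRange)) (le_sup_right (b := j'.fieldRange)))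
    (by
      rintro σ _ (⟨x, rfl⟩ | ⟨x, rfl⟩)
      · exact (gal3_r j σ).elim fun g hg => Or.inl ⟨g x, hg x⟩
      · exact (gal3_r j' σ).elim fun g hg => Or.inr ⟨g x, hg x⟩)
  obtain ⟨k, hk⟩ := gal3_lift (j := j) fun x => h1 (Or.inl ⟨x, rfl⟩)
  obtain ⟨k', hk'⟩ := gal3_lift (j := j') fun x => h1 (Or.inr ⟨x, rfl⟩)
  refine ⟨L'', k, k', fun g hg hg' => h2 g ?_⟩
  rintro y (⟨x, e⟩ | ⟨x, e⟩)
  · rw [← v.injective ((hk x).trans e), hg]
  · rw [← v.injective ((hk' x).trans e), hg']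

theorem gal3_mem (h : GalR O L B) (j : L.E →ₐ[F] L'.E) : ∀ b ∈ B, j b ∈ ic O L' :=
  fun _ hb => (h.integral hb).map (j.restrictScalars O)

theorem gal3_ine (h : GalR O L B) (j : L.E →ₐ[F] L'.E) {g : L'.G} (hg : ¬ ∀ x, g (j x) = j x) :
    ∃ (m : ℕ) (x y : Fin m → L'.E), (∀ t, x t ∈ ic O L') ∧ (∀ t, y t ∈ ic O L') ∧
      ∑ t, x t * (y t - g (y t)) = 1 := by
  obtain ⟨r, hr⟩ := L.exists_r L' (φ := RingHom.id F) (j := (j : L.E →+* L'.E)) j.commutes
  obtain ⟨m, x, y, hx, hy, e⟩ := h.ine (g := r g) fun e => hg fun x => by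
    simpa [e] using (hr g x).symm
  refine ⟨m, fun t => j (x t), fun t => j (y t), fun t => gal3_mem h j _ (hx t),
    fun t => gal3_mem h j _ (hy t), ?_⟩
  rw [← map_one j, ← e, map_sum]
  refine Finset.sum_congr rfl fun t _ => ?_
  rw [map_mul, map_sub]
  exact congrArg _ (congrArg _ (hr g _).symm)

theorem gal3_ic (hO : Nm O) (H : ∀ g : L.G, g ≠ 1 → ∃ (m : ℕ) (x y : Fin m → L.E),
    (∀ t, x t ∈ ic O L) ∧ (∀ t, y t ∈ ic O L) ∧ ∑ t, x t * (y t - g (y t)) = 1) :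
    GalR O L (ic O L) := by
  have act : ∀ g : L.G, ∀ b ∈ ic O L, g b ∈ ic O L := fun g _ hb =>
    (mem_ic.1 hb).map (g.toAlgHom.restrictScalars O)
  obtain ⟨m, x, y, hx, hy, e⟩ := chr_of_ine act H
  exact galR_ic hO hx hy e

/-- in the compositum take `ic`; `chr_of_ine`, `GalR.ine`, `galR_ic` -/
theorem GalR.common (hO : Nm O) (h : GalR O L B) (h' : GalR O L' B') :
    ∃ (L'' : Lv F) (j : L.E →ₐ[F] L''.E) (j' : L'.E →ₐ[F] L''.E), GalR O L'' (ic O L'') ∧
      (∀ b ∈ B, j b ∈ ic O L'') ∧ ∀ b ∈ B', j' b ∈ ic O L'' := by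
  obtain ⟨L'', j, j', H⟩ := L.common L'
  refine ⟨L'', j, j', gal3_ic hO fun g hg => ?_, gal3_mem h j, gal3_mem h' j'⟩
  by_cases h1 : ∀ x, g (j x) = j x
  · exact gal3_ine h' j' fun h2 => hg (H g h1 h2)
  · exact gal3_ine h j h1

variable {p : ℕ} [Fact p.Prime] [CharP F p]

/-- two roots of `X ^ p - X - y` differ by an integer -/
theorem as_diff {w w' : F} (h : w ^ p - w = w' ^ p - w') : ∃ n : ℕ, n < p ∧ w - w' = n := by
  have h1 : (w - w') ^ p = w - w' := by rw [sub_pow_char]; linear_combination h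
  rw [← Subfield.mem_bot_iff_pow_eq_self, ← ZMod.fieldRange_castHom_eq_bot p] at h1
  obtain ⟨z, hz⟩ := h1
  exact ⟨z.val, z.val_lt, by rw [← hz, ZMod.natCast_val, ZMod.castHom_apply]⟩

theorem as_root (y : SC F) : ∃ w : SC F, w ^ p - w = y := by
  obtain ⟨w, hw⟩ := IsSepClosed.exists_root_C_mul_X_pow_add_C_mul_X_add_C' p p 1 (-1) (-y) dvd_rfl
    (Fact.out : p.Prime).two_le (neg_ne_zero.2 one_ne_zero)
  exact ⟨w, by linear_combination hw⟩

/-- Inside `SC F` adjoin to `F` the image of `L.E` and all roots of the `X ^ p - X - g (y i)`. An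
automorphism that fixes the image of `L.E` moves each root by an integer. -/
theorem Lv.as (L : Lv F) {ι : Type} [Finite ι] (y : ι → L.E) :
    ∃ (L' : Lv F) (j : L.E →ₐ[F] L'.E) (w : L.G → ι → L'.E),
      (∀ g i, w g i ^ p - w g i = j (g (y i))) ∧
      ∀ σ : L'.G, (∀ x, σ (j x) = j x) → (∀ g i, σ (w g i) = w g i) → σ = 1 := by
  let j : L.E →ₐ[F] SC F := IsSepClosed.lift
  choose w hw using fun q : L.G × ι => as_root (p := p) (j (q.1 (y q.2)))
  have := gal3_fin j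
  have := IntermediateField.finiteDimensional_adjoin (K := F) (S := Set.range w)
    fun x _ => Algebra.IsIntegral.isIntegral x
  obtain ⟨L', v, h1, h2⟩ := gal3_gen (Set.range j ∪ {z | ∃ q, z ^ p - z = w q ^ p - w q})
    (j.fieldRange ⊔ IntermediateField.adjoin F (Set.range w))
    (Set.union_subset (le_sup_left (a := j.fieldRange)) (by
      rintro z ⟨q, e⟩
      obtain ⟨n, -, hn⟩ := as_diff e
      rw [eq_add_of_sub_eq hn]
      exact add_mem (natCast_mem _ n) (le_sup_right (a := j.fieldRange)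
        (IntermediateField.subset_adjoin F _ ⟨q, rfl⟩))))
    (by
      intro σ
      obtain ⟨g, hg⟩ := gal3_r j σ
      rintro _ (⟨x, rfl⟩ | ⟨q, e⟩)
      · exact Or.inl ⟨g x, hg x⟩
      · refine Or.inr ⟨(g * q.1, q.2), ?_⟩
        rw [← map_pow, ← map_sub, e, hw, hw, ← hg, AlgEquiv.mul_apply])
  obtain ⟨k, hk⟩ := gal3_lift (j := j) fun x => h1 (Or.inl ⟨x, rfl⟩)
  choose u hu using fun q => AlgHom.mem_fieldRange.1 (h1 (Or.inr ⟨q, rfl⟩ : w q ∈ _))
  refine ⟨L', k, fun g i => u (g, i), fun g i => v.injective ?_, fun σ hσ hσ' => h2 σ ?_⟩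
  · change v _ = v _
    rw [map_sub, map_pow, hu, hw, hk]
  · rintro z (⟨x, e⟩ | ⟨q, e⟩)
    · rw [← v.injective ((hk x).trans e), hσ]
    · rw [← hu, ← map_pow, ← map_pow, ← map_sub, ← map_sub] at e
      obtain ⟨n, -, hn⟩ := as_diff (v.injective e)
      rw [eq_add_of_sub_eq hn, map_add, map_natCast, hσ' q.1 q.2]

omit [CharP F p] in
theorem gal3_int {w : L.E} (h : IsIntegral O (w ^ p - w)) : w ∈ ic O L := by
  have hp := (Fact.out : p.Prime).one_lt
  refine IsIntegral.of_aeval_monic (p := Polynomial.X ^ p - Polynomial.X)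
    (Polynomial.monic_X_pow_sub (by simpa using hp)) ?_ (by simpa using h)
  rw [Polynomial.natDegree_sub_eq_left_of_natDegree_lt (by simpa using hp),
    Polynomial.natDegree_X_pow]
  omega

/-- `σ w - w` is a nonzero integer below `p`, a unit -/
theorem GalR.as (hO : Nm O) (h : GalR O L B) {ι : Type} [Finite ι] {y : ι → L.E}
    (hy : ∀ i, y i ∈ B) : ∃ (L' : Lv F) (j : L.E →ₐ[F] L'.E) (w : ι → L'.E),
      GalR O L' (ic O L') ∧ (∀ b ∈ B, j b ∈ ic O L') ∧
      ∀ i, w i ∈ ic O L' ∧ w i ^ p - w i = j (y i) := by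
  obtain ⟨L', j, w, hw, H⟩ := L.as (p := p) y
  have h1 : ∀ g i, w g i ∈ ic O L' := fun g i =>
    gal3_int (p := p) (hw g i ▸ gal3_mem h j _ (h.act g _ (hy i)))
  refine ⟨L', j, w 1, gal3_ic hO fun σ hσ => ?_, gal3_mem h j, fun i => ⟨h1 1 i, hw 1 i⟩⟩
  by_cases h2 : ∀ x, σ (j x) = j x
  swap
  · exact gal3_ine h j h2
  obtain ⟨g, i, h3⟩ : ∃ g i, σ (w g i) ≠ w g i := by
    by_contra h4
    push Not at h4
    exact hσ (H σ h2 h4)
  have h4 : (w g i - σ (w g i)) ^ p = w g i - σ (w g i) := by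
    have := congrArg σ (hw g i)
    rw [h2, map_sub, map_pow, ← hw] at this
    rw [sub_pow_char]
    linear_combination -this
  refine ⟨1, fun _ => (w g i - σ (w g i))⁻¹, fun _ => w g i, fun _ => gal3_int (p := p) ?_,
    fun _ => h1 g i, ?_⟩
  · rw [inv_pow, h4, sub_self]
    exact isIntegral_zero
  · rw [Fin.sum_univ_one, inv_mul_cancel₀ (sub_ne_zero.2 h3.symm)]

end Pool.Agent.ZFd
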