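import Pool.Agent.Lib.MP_751085_ag.ZF.B.Defs
import Pool.Agent.Lib.MP_751085_ag.ZF.A2b
import Pool.Agent.Lib.MP_751085_ag.ZF.E.U3

/-! Values of unit cocycles. -/

namespace Pool.Agent.ZFd

open scoped Classical Pool.Agent.ZCy.F
open groupCohomology
open Pool.Agent.ZCy (dd pull cl)
open Pool.Agent.ZCy.F (BR SC cls rs UC Loc)

variable {O O' M M' : Type} [CommRing O] [CommRing O'] [Field M] [Field M'] (U : UC O)

theorem uc_exists_at (φ : O →+* M) :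
    ∃ (ρ : U.A →+* SC M) (r : ZCy.F.Gm M → U.G), U.At φ ρ r := U.exists_at_sc φ

theorem uc_val_eq {φ : O →+* M} {ρ : U.A →+* SC M} {r : ZCy.F.Gm M → U.G} (h : U.At φ ρ r) :
    ZCy.F.pullR ρ r U.c ∈ ZCy.Z2 M (SC M) ∧ U.val φ = cl M _ (ZCy.F.pullR ρ r U.c) := ⟨h.mem_Z2, h.val_eq⟩

theorem uc_val_comp (φ : O →+* M) (γ : M →+* M') : U.val (γ.comp φ) = rs γ (U.val φ) := U.val_comp φ γ

theorem uc_bc (ψ : O →+* O') : ∃ U' : UC O', ∀ (M : Type) [Field M] (φ : O' →+* M),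
    U'.val φ = U.val (φ.comp ψ) := U.bc_val ψ

theorem uc_add (V : UC O) : ∃ W : UC O, ∀ (M : Type) [Field M] (φ : O →+* M),
    W.val φ = U.val φ + V.val φ := U.add_val V

theorem uc_neg : ∃ W : UC O, ∀ (M : Type) [Field M] (φ : O →+* M), W.val φ = -U.val φ := U.neg_val

variable (O) in
theorem uc_zero : ∃ W : UC O, ∀ (M : Type) [Field M] (φ : O →+* M), W.val φ = 0 := ZCy.F.UC.zero_val O

theorem uc_mem_loc {R : Subring M} {a : BR M} :
    a ∈ Loc R ↔ ∃ U : UC R, U.val R.subtype = a := ZCy.F.mem_loc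

theorem loc_mono {R R' : Subring M} (h : R ≤ R') : Loc R ≤ Loc R' := fun a ha => by
  obtain ⟨U, rfl⟩ := uc_mem_loc.1 ha
  obtain ⟨U', h'⟩ := uc_bc U (Subring.inclusion h)
  exact uc_mem_loc.2 ⟨U', h' _ _⟩

end Pool.Agent.ZFd
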