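import Pool.Agent.Lib.MP_751085_ag.ZF.B.Gal2
import Pool.Agent.Lib.MP_751085_ag.ZF.B.Gal3
import Pool.Agent.Lib.MP_751085_ag.ZF.B.U0

/-! Connected coverings compute the local Brauer groups. -/

namespace Pool.Agent.ZFd

open scoped Classical Pool.Agent.ZCy.F
open groupCohomology
open Pool.Agent.ZCy (dd pull cl)
open Pool.Agent.ZCy.F (BR SC cls rs UC Loc)

variable {F M : Type} [Field F] [Field M] {A O : Subring F} {L L' : Lv F} {B : Subring L.E}
  {B' : Subring L'.E} {c c' : L.G × L.G → L.Eˣ} {a : BR F}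

theorem Cc.mul (hc : Cc L B c) (hc' : Cc L B c') : Cc L B (c * c') :=
  ⟨ZCy.coc_mul hc.coc hc'.coc, fun q => (hc.un q).mul (hc'.un q)⟩

theorem Cc.up (hc : Cc L B c) {j : L.E →ₐ[F] L'.E} {r : L'.G → L.G}
    (hr : ∀ g x, j (r g x) = g (j x)) (hB : ∀ b ∈ B, j b ∈ B') :
    Cc L' B' (pull (j : L.E →+* L'.E) r c) :=
  ⟨ZCy.pull_coc (G := L.G) (G' := L'.G) hr hc.coc, fun q => by
    obtain ⟨h1, h2, h3⟩ := hc.un (r q.1, r q.2)
    exact ⟨hB _ h1, (map_ne_zero j).2 h2, (map_inv₀ j _).subst (motive := (· ∈ B')) (hB _ h3)⟩⟩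

theorem cls_up (hc : IsMulCocycle₂ c) {j : L.E →ₐ[F] L'.E} {r : L'.G → L.G}
    (hr : ∀ g x, j (r g x) = g (j x)) : cls F (pull (j : L.E →+* L'.E) r c) = cls F c :=
  (ZCy.F.rs_cls (G := L.G) (G' := L'.G) (RingHom.id F) (fun a => j.commutes a) hr hc).symm.trans
    (ZCy.F.res_id _)

theorem GalR.val_self (h : GalR O L B) (hc : Cc L B c) : (h.uc hc).val O.subtype = cls F c := by
  obtain ⟨⟨j, r⟩, hj⟩ := ZCy.F.a2_ex F L.E L.G
  have H : (h.uc hc).At O.subtype ((j : L.E →+* SC F).comp B.subtype) r :=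
    ⟨fun o => j.commutes o, fun g y => hj g y.1⟩
  rw [(uc_val_eq _ H).2, ZCy.F.cls_eq_cl (j := (j : L.E →+* SC F)) j.commutes hj hc.coc]
  exact congrArg (cl F _) (funext fun q => Units.ext rfl)

theorem GalR.val_up (h : GalR O L B) (hc : Cc L B c) (h' : GalR O L' B') {j : L.E →ₐ[F] L'.E}
    {r : L'.G → L.G} (hr : ∀ g x, j (r g x) = g (j x)) (hB : ∀ b ∈ B, j b ∈ B') (φ : O →+* M) :
    (h'.uc (hc.up hr hB)).val φ = (h.uc hc).val φ := by
  obtain ⟨ρ, s, H⟩ := uc_exists_at (h'.uc (hc.up hr hB)) φ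
  have H' : (h.uc hc).At φ (ρ.comp ((j : L.E →+* L'.E).restrict B B' hB)) fun g => r (s g) :=
    ⟨fun o => (congrArg ρ (Subtype.ext (j.commutes o))).trans (H.base o),
      fun g y => (congrArg ρ (Subtype.ext (hr (s g) y.1))).trans (H.comm g _)⟩
  rw [(uc_val_eq _ H).2, (uc_val_eq _ H').2]
  exact congrArg (cl M _) (funext fun q => Units.ext (congrArg ρ (Subtype.ext rfl)))

theorem cn_sep {R : Type} [CommRing R] (U : UC R) : ∃ (n : ℕ) (y : Fin n → U.A),
    ∀ {Ω : Type} [Field Ω] (ρ : U.A →+* Ω) (a b : U.G),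
      (∀ t, ρ (a • y t) = ρ (b • y t)) → a = b := by
  obtain ⟨n, x, y, e⟩ := U.crd
  refine ⟨n, y, fun ρ a b h => by_contra fun hn => ?_⟩
  have e1 := congrArg (fun z => ρ (a • z)) (e 1)
  have e2 := congrArg (fun z => ρ (a • z)) (e (a⁻¹ * b))
  simp only [Finset.smul_sum, smul_mul', smul_smul, mul_inv_cancel_left, mul_one, map_sum, map_mul,
    inv_mul_eq_one, hn, if_true, if_false, smul_one, smul_zero, map_one, map_zero, ← h] at e1 e2
  exact one_ne_zero (e1.symm.trans e2)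

theorem cn_at {R : Type} [CommRing R] {U : UC R} {φ : R →+* M} {ρ : U.A →+* SC M}
    {r : ZCy.F.Gm M → U.G} (H : U.At φ ρ r) :
    (∀ g g', r (g * g') = r g * r g') ∧ IsLocallyConstant r := by
  obtain ⟨n, y, hy⟩ := cn_sep U
  refine ⟨fun g g' => hy ρ _ _ fun t => by rw [H.comm, mul_smul, mul_smul, H.comm, H.comm],
    IsLocallyConstant.desc r (fun a t => ρ (a • y t)) (ZCy.lc_pi fun t => ?_)
      fun a b e => hy ρ a b (congrFun e)⟩
  simp only [Function.comp, H.comm]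
  exact ZCy.lc_apply _

theorem GalR.val_dd (h : GalR O L B) (hc : Cc L B c) (hc' : Cc L B c') {e : L.G → L.Eˣ}
    (he : ∀ g, Un B (e g : L.E)) (H : c = c' * dd e) (φ : O →+* M) :
    (h.uc hc).val φ = (h.uc hc').val φ := by
  obtain ⟨ρ, r, K⟩ := uc_exists_at (h.uc hc) φ
  have K' : (h.uc hc').At φ ρ r := ⟨K.base, K.comm⟩
  obtain ⟨h1, h2⟩ := cn_at K
  let u : L.G → (h.uc hc).Aˣ := fun g => ⟨⟨e g, (he g).1⟩, ⟨(e g : L.E)⁻¹, (he g).2.2⟩,
    Subtype.ext (mul_inv_cancel₀ (e g).ne_zero), Subtype.ext (inv_mul_cancel₀ (e g).ne_zero)⟩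
  have h3 : ∀ q, (h.uc hc).c q =
      (show (h.uc hc).Aˣ from (h.uc hc').c q) * dd (G := (h.uc hc).G) u q :=
    fun q => Units.ext (Subtype.ext (by
      have := congrArg Units.val (congrFun H q)
      simp only [Pi.mul_apply, dd, Units.val_mul, div_eq_mul_inv, Units.val_inv_eq_inv_val] at this
      exact this))
  have h4 := ZCy.F.cl_mul_dd (uc_val_eq _ K').1
    (h2.comp fun g => Units.map (ρ : (h.uc hc).A →* SC M) (u g))
  rw [(uc_val_eq _ K).2, (uc_val_eq _ K').2, ← h4.2]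
  refine congrArg (cl M _) (funext fun q => ?_)
  have h5 : ∀ g v, Units.map (ρ : (h.uc hc).A →* SC M) (r g • v) = g • Units.map ρ v :=
    fun g v => Units.ext (K.comm g v)
  simp only [ZCy.F.pullR, h3, dd, Pi.mul_apply, Function.comp, h1, map_mul, map_div, h5]
  rfl

theorem cn_conn (U : UC O) : ∃ (L : Lv F) (ι : U.A →+* L.E) (s : L.G → U.G),
    (∀ o, ι (U.i o) = L.i o) ∧ (∀ g y, ι (s g • y) = g (ι y)) ∧ ∀ g, s g = 1 → g = 1 := by
  obtain ⟨ι, r, H⟩ := uc_exists_at U O.subtype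
  obtain ⟨n, x, y, e⟩ := U.crd
  let E := IntermediateField.adjoin F (Set.range fun t => ι (x t))
  have h1 : ∀ z, ι z ∈ E := fun z => by
    have : z = ∑ t, x t * ∑ g : U.G, g • (y t * z) := by
      simp only [Finset.mul_sum, smul_mul', ← mul_assoc]
      rw [Finset.sum_comm]
      simp only [← Finset.sum_mul, e, ite_mul, one_mul, zero_mul, Finset.sum_ite_eq',
        Finset.mem_univ, if_true, one_smul]
    rw [this, map_sum]
    refine sum_mem fun t _ => ?_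
    obtain ⟨o, ho⟩ := (U.inv (∑ g : U.G, g • (y t * z))).2 fun k => by
      simp only [Finset.smul_sum, smul_smul]
      exact Fintype.sum_equiv (Equiv.mulLeft k) _ _ fun _ => rfl
    rw [map_mul, ← ho, H.base]
    exact mul_mem (IntermediateField.subset_adjoin _ _ ⟨t, rfl⟩) (E.algebraMap_mem _)
  have : FiniteDimensional F E := IntermediateField.finiteDimensional_adjoin fun z _ =>
    Algebra.IsIntegral.isIntegral z
  have : Normal F E := IntermediateField.normal_iff_forall_map_le'.2 fun g => by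
    rw [IntermediateField.adjoin_map, IntermediateField.adjoin_le_iff]
    rintro _ ⟨_, ⟨t, rfl⟩, rfl⟩
    exact (H.comm g (x t)).subst (motive := (· ∈ E)) (h1 _)
  have : IsGalois F E := ⟨⟩
  have h2 : ∀ (g : E ≃ₐ[F] E) z, ι.codRestrict E h1 (r (g.liftNormal (SC F)) • z) =
      g (ι.codRestrict E h1 z) := fun g z =>
    Subtype.ext ((H.comm _ z).trans (g.liftNormal_commutes (SC F) ⟨ι z, h1 z⟩))
  refine ⟨⟨E⟩, ι.codRestrict E h1, fun g => r (g.liftNormal (SC F)),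
    fun o => Subtype.ext (H.base o), h2, fun g hg => ?_⟩
  refine AlgEquiv.coe_toAlgHom_injective (IntermediateField.adjoin_algHom_ext F ?_)
  rintro _ ⟨t, rfl⟩
  exact (h2 g (x t)).symm.trans (by rw [show r _ = 1 from hg, one_smul]; rfl)

theorem uc_conn (U : UC O) (hO : Nm O) : ∃ (L : Lv F) (c : L.G × L.G → L.Eˣ)
    (h : GalR O L (ic O L)) (hc : Cc L (ic O L) c),
    ∀ (M : Type) [Field M] (φ : O →+* M), (h.uc hc).val φ = U.val φ := by
  obtain ⟨L, ι, s, h1, h2, h3⟩ := cn_conn U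
  obtain ⟨n, w, hw⟩ := cn_sep U
  have hm : ∀ g g', s (g * g') = s g * s g' := fun g g' => hw ι _ _ fun t => by
    rw [h2, mul_smul, h2, h2, AlgEquiv.mul_apply]
  have h4 : ∀ g, s g = 1 ↔ g = 1 := fun g => ⟨h3 g, fun e => hw ι _ _ fun t => by
    rw [h2, e, one_smul, AlgEquiv.one_apply]⟩
  have hi : ∀ z, IsIntegral O (ι z) := fun z => by
    let := U.i.toAlgebra
    have : Algebra.IsInvariant O U.A U.G := ⟨fun b hb => (U.inv b).2 hb⟩
    exact ((Algebra.IsInvariant.isIntegral O U.A U.G).isIntegral z).map_of_comp_eq (RingHom.id O) ι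
      (RingHom.ext fun o => (h1 o).symm)
  obtain ⟨k, x, y, e⟩ := U.crd
  have h : GalR O L (ic O L) := galR_ic hO (fun t => hi (x t)) (fun t => hi (y t)) fun g => by
    have := congrArg ι (e (s g))
    simp only [map_sum, map_mul, h2, h4, apply_ite ι, map_one, map_zero] at this
    exact this
  have h5 : ∀ g v, Units.map (ι : U.A →* L.E) (s g • v) = g • Units.map ι v :=
    fun g v => Units.ext (h2 g v)
  have hc : Cc L (ic O L) (ZCy.F.pullR ι s U.c) := ⟨fun g g' j => by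
      simp only [ZCy.F.pullR, hm, ← h5, ← map_mul]
      rw [U.coc], fun q => ⟨mem_ic.2 (hi _), Units.ne_zero _, by
      rw [← Units.val_inv_eq_inv_val]
      exact mem_ic.2 (hi _)⟩⟩
  refine ⟨L, _, h, hc, fun M _ φ => ?_⟩
  obtain ⟨ρ, r, H⟩ := uc_exists_at (h.uc hc) φ
  have H' : U.At φ (ρ.comp (ι.codRestrict (ic O L) fun z => mem_ic.2 (hi z))) fun g => s (r g) :=
    ⟨fun o => (congrArg ρ (Subtype.ext (h1 o))).trans (H.base o),
      fun g z => (congrArg ρ (Subtype.ext (h2 (r g) z))).trans (H.comm g _)⟩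
  rw [(uc_val_eq _ H).2, (uc_val_eq _ H').2]
  exact congrArg (cl M _) (funext fun q => Units.ext (congrArg ρ (Subtype.ext rfl)))

theorem mem_loc_iff (hO : Nm O) : a ∈ Loc O ↔ ∃ (L : Lv F) (c : L.G × L.G → L.Eˣ),
    GalR O L (ic O L) ∧ Cc L (ic O L) c ∧ cls F c = a := by
  refine uc_mem_loc.trans ⟨fun ⟨U, e⟩ => ?_, fun ⟨L, c, h, hc, e⟩ => ⟨_, (h.val_self hc).trans e⟩⟩
  obtain ⟨L, c, h, hc, H⟩ := uc_conn U hO
  exact ⟨L, c, h, hc, (h.val_self hc).symm.trans ((H _ _).trans e)⟩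

theorem loc_top (a : BR F) : a ∈ Loc (⊤ : Subring F) := by
  obtain ⟨E, _, _, x, -, hx, e⟩ := ZCy.F.exists_cls a ∅
  exact uc_mem_loc.2 ⟨_, ((galR_top ⟨E⟩).val_self
    ⟨hx, fun q => un_top.2 (Units.ne_zero _)⟩).trans e⟩

variable {p m : ℕ} [Fact p.Prime] [CharP F p]

theorem uc_unique (hO : Reg p m O) {U V : UC O} (h : U.val O.subtype = V.val O.subtype)
    (φ : O →+* M) : U.val φ = V.val φ := by
  obtain ⟨L, c, g, hc, H⟩ := uc_conn U hO.1.nm
  obtain ⟨L', c', g', hc', H'⟩ := uc_conn V hO.1.nm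
  obtain ⟨T, j, j', k, hj, hj'⟩ := g.common hO.1.nm g'
  obtain ⟨r, hr⟩ := L.exists_r T (φ := RingHom.id F) (j := (j : L.E →+* T.E)) j.commutes
  obtain ⟨r', hr'⟩ := L'.exists_r T (φ := RingHom.id F) (j := (j' : L'.E →+* T.E)) j'.commutes
  have h1 := hc.up hr hj
  have h2 := hc'.up hr' hj'
  obtain ⟨e, he⟩ := (ZCy.F.cls_eq_iff (K := F) h1.coc h2.coc).1 (by
    rw [cls_up hc.coc hr, cls_up hc'.coc hr', ← g.val_self hc, ← g'.val_self hc', H, H', h])
  have := k.ufd hO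
  obtain ⟨e', h3, h4⟩ := k.unit_dd hO.1.frac (e := e) fun q => by
    have h5 := (h1.un q).div (h2.un q)
    rw [← Units.val_div_eq_div_val, he, Pi.mul_apply, mul_div_cancel_left] at h5
    exact h5
  rw [← H, ← H', ← g.val_up hc k hr hj, ← g'.val_up hc' k hr' hj']
  exact k.val_dd h1 h2 h3 (he.trans (congrArg (_ * ·) h4.symm)) φ

omit [Fact p.Prime] [CharP F p] in
theorem integral_spread (hO : IsLoc A O) {τ : Type} [Finite τ] {z : τ → L.E}
    (hz : ∀ t, IsIntegral O (z t)) :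
    ∃ h ∈ A, Un O h ∧ ∀ t, IsIntegral (away A h) (z t) := by
  choose P hP hP' using hz
  obtain ⟨s, hs, hu, H⟩ := hO.common (ι := Σ t, Fin ((P t).natDegree + 1))
    (z := fun i => ((P i.1).coeff i.2 : F)) fun i => Subtype.prop _
  refine ⟨s, hs, hu, fun t => ?_⟩
  obtain ⟨Q, h1, -, h2⟩ := Polynomial.lifts_and_degree_eq_and_monic (f := (away A s).subtype)
    (p := (P t).map O.subtype) ((Polynomial.lifts_iff_coeff_lifts _).2 fun n => by
      rw [Polynomial.coeff_map]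
      rcases le_or_gt n (P t).natDegree with hn | hn
      · exact ⟨⟨_, (mem_away hs hu.2.1).2 ⟨1, (pow_one s).symm ▸
          H ⟨t, n, Nat.lt_succ_of_le hn⟩⟩⟩, rfl⟩
      · rw [Polynomial.coeff_eq_zero_of_natDegree_lt hn, map_zero]
        exact ⟨0, rfl⟩) ((hP t).map _)
  refine ⟨Q, h2, ?_⟩
  have h3 := congrArg (Polynomial.eval₂ L.i (z t)) h1
  rw [Polynomial.eval₂_map, Polynomial.eval₂_map] at h3
  exact h3.trans (hP' t)

theorem loc_spread (hA : Sm p m A) (hO : IsLoc A O) (ha : a ∈ Loc O) :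
    ∃ h ∈ A, Un O h ∧ a ∈ Loc (away A h) := by
  obtain ⟨L, c, g, hc, e⟩ := (mem_loc_iff (hA.reg hO).1.nm).1 ha
  obtain ⟨k, x, y, hx, hy, H⟩ := g.chr
  obtain ⟨s, hs, hu, K⟩ := integral_spread hO (z := Sum.elim (Sum.elim x y)
      (Sum.elim (fun q => (c q : L.E)) fun q => (c q : L.E)⁻¹)) (by
    rintro ((t | t) | q | q)
    exacts [mem_ic.1 (hx t), mem_ic.1 (hy t), mem_ic.1 (hc.un q).1, mem_ic.1 (hc.un q).2.2])
  have hn := (hA.away hs hu.2.1).nm
  exact ⟨s, hs, hu, (mem_loc_iff hn).2 ⟨L, c,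
    galR_ic hn (fun t => K (.inl (.inl t))) (fun t => K (.inl (.inr t))) H,
    ⟨hc.coc, fun q => ⟨mem_ic.2 (K (.inr (.inl q))), Units.ne_zero _,
      mem_ic.2 (K (.inr (.inr q)))⟩⟩, e⟩⟩

end Pool.Agent.ZFd
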