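import Pool.Agent.Lib.MP_751085_ag.ZF.B.Rep
import Pool.Agent.Lib.MP_751085_ag.ZC.G3

/-! Symbols, norms and corestriction. -/

namespace Pool.Agent.ZFd

open scoped Classical Pool.Agent.ZCy.F
open groupCohomology
open Pool.Agent.ZCy (dd pull cl)
open Pool.Agent.ZCy.F (BR SC cls rs UC Loc)

variable {F : Type} [Field F] {p : ℕ} [Fact p.Prime] [CharP F p]

theorem HB.ext (hF : HB p F) (E : Type) [Field E] [Algebra F E] [Algebra.IsSeparable F E]
    [CharP E p] : HB p E :=
  let ⟨m, _, h⟩ := hF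
  ⟨m, _, h.ext_top⟩

theorem cor_dd {G A : Type} [Group G] [CommGroup A] [MulDistribMulAction G A] {β : A}
    (hβ : ∀ g : G, g • β = β) (l : G → ℤ) (q : G × G) :
    dd (fun g => β ^ l g) q = β ^ (l q.1 + l q.2 - l (q.1 * q.2)) := by
  rw [dd, smul_zpow', hβ, div_eq_mul_inv, ← zpow_sub, ← zpow_add]
  congr 1
  ring

omit [Fact p.Prime] in
theorem cor_div {E : Type} [Field E] [CharP E p] {a : ℤ} (h : (a : E) = 0) : p * (a / p) = a :=
  Int.mul_ediv_cancel' ((CharP.intCast_eq_zero_iff E p a).1 h)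

theorem cor_cancel {a b : ℤ} (h : p * a = p * b) : a = b :=
  mul_left_cancel₀ (Int.natCast_ne_zero.2 (Fact.out : p.Prime).ne_zero) h

theorem cor_symb1 (hF : HB p F) (L : Lv F) {w : L.E} {y : F} (b : Fˣ) {n : L.G → ℤ}
    {k : L.G × L.G → ℤ} (hw : w ^ p - w = L.i y) (hn : ∀ g, g w - w = n g)
    (hk : ∀ g g', p * k (g, g') = n g + n g' - n (g * g')) :
    IsMulCocycle₂ (fun q => Units.map (L.i : F →* L.E) b ^ k q) ∧
      dlt p F (mq p (y • dlog (b : F))) = cls F fun q => Units.map (L.i : F →* L.E) b ^ k q := by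
  have h := rp_symb L (ι := Unit) (w := fun _ => w) (y := fun _ => y) (fun _ => b)
    (n := fun g _ => n g) (k := fun q _ => k q) (fun _ => hw) (fun g _ => hn g) fun g g' _ => hk g g'
  simp only [Fintype.prod_unique, Fintype.sum_unique] at h
  exact ⟨h.coc, Rep.eq_dlt hF ⟨L, _, _, _, h, rfl⟩⟩

/-- a symbol on the absolute Galois group -/
theorem dlt_cl (hF : HB p F) {w : SC F} {y : F} (b : Fˣ) {n : ZCy.F.Gm F → ℤ}
    {k : ZCy.F.Gm F × ZCy.F.Gm F → ℤ} (hw : w ^ p - w = algebraMap F _ y)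
    (hn : ∀ g, g w - w = n g) (hk : ∀ g g', p * k (g, g') = n g + n g' - n (g * g'))
    (hl : IsLocallyConstant n) :
    (fun q => Units.map (algebraMap F (SC F) : F →* SC F) b ^ k q) ∈ ZCy.Z2 F (SC F) ∧
    dlt p F (mq p (y • dlog (b : F))) =
      cl F _ fun q => Units.map (algebraMap F (SC F) : F →* SC F) b ^ k q := by
  obtain ⟨E, _, _, hE⟩ := ZCy.F.exists_level (K := F) ({w} : Finset (SC F))
  let L : Lv F := ⟨E⟩
  let w₀ : L.E := ⟨w, hE w (Finset.mem_singleton_self w)⟩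
  have hw₀ : w₀ ^ p - w₀ = L.i y := Subtype.ext hw
  obtain ⟨n₀, k₀, hn₀, hk₀⟩ := exists_asn (p := p) L (ι := Unit) (w := fun _ => w₀)
    (y := fun _ => y) fun _ => hw₀
  obtain ⟨hc, e⟩ := cor_symb1 hF L b (n := fun g => n₀ g ()) (k := fun q => k₀ q ()) hw₀
    (fun g => hn₀ g ()) fun g g' => hk₀ g g' ()
  let j : L.E →+* SC F := algebraMap E (SC F)
  let r : ZCy.F.Gm F → L.G := AlgEquiv.restrictNormalHom E
  have hr : ∀ g x, j (r g • x) = g (j x) := ZCy.F.a2b_res E
  have hm : ∀ g g', r (g * g') = r g * r g' := map_mul (AlgEquiv.restrictNormalHom E)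
  let l : ZCy.F.Gm F → ℤ := fun g => (n g - n₀ (r g) ()) / p
  have hl₀ : ∀ g, p * l g = n g - n₀ (r g) () := fun g => cor_div (E := SC F) (by
    rw [Int.cast_sub, ← hn, ← map_intCast j, ← hn₀, map_sub]
    exact sub_eq_zero.2 (congrArg (· - w) (hr g w₀).symm))
  have lc : IsLocallyConstant l :=
    (hl.prodMk (ZCy.locConst_one.1 (ZCy.F.link_locConst hr (n := 1) fun g => n₀ (g 0) ()))).comp
      fun z => (z.1 - z.2) / p
  obtain ⟨h1, h2⟩ := ZCy.F.cl_mul_dd (ZCy.F.pull_mem_Z2 hr hc)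
    (lc.comp fun a => Units.map (algebraMap F (SC F) : F →* SC F) b ^ a)
  have key : (fun q => Units.map (algebraMap F (SC F) : F →* SC F) b ^ k q) =
      pull j r (fun q => Units.map (L.i : F →* L.E) b ^ k₀ q ()) *
        dd ((fun a => Units.map (algebraMap F (SC F) : F →* SC F) b ^ a) ∘ l) := funext fun q => by
    refine Eq.trans ?_ (congrArg₂ (· * ·) (map_zpow _ _ _) (cor_dd (fun g =>
      Units.ext (g.commutes (b : F))) l q)).symm
    refine Eq.trans (congrArg _ (cor_cancel (p := p) ?_)) (zpow_add _ _ _)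
    rw [hk, mul_add, hk₀, mul_sub, mul_add, hl₀, hl₀, hl₀, hm]
    ring
  rw [key, h2, e]
  exact ⟨h1, ZCy.F.cls_eq_cl (j := j) (fun _ => rfl) hr hc⟩

theorem cor_pow {L : Lv F} {g : L.G} {w : L.E} {c : ℕ} (h : g w - w = c) (m : ℕ) :
    (g ^ m) w - w = (m * c : ℕ) := by
  induction m with
  | zero => simp
  | succ m ih =>
    rw [pow_succ', AlgEquiv.mul_apply, sub_eq_iff_eq_add.1 ih, map_add, map_natCast, add_sub_assoc,
      h]
    push_cast
    ring

theorem cor_gen (L : Lv F) [Nontrivial L.G] {w : L.E} {y : F} (hw : w ^ p - w = L.i y)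
    (hL : ∀ g : L.G, g w = w → g = 1) :
    ∃ s : L.G, s w - w = (1 : ℕ) ∧ orderOf s = p ∧ ∀ g, g ∈ Subgroup.zpowers s := by
  have hd : ∀ g : L.G, ∃ n : ℕ, n < p ∧ g w - w = n := fun g =>
    as_diff (by rw [← map_pow, ← map_sub, hw]; exact g.commutes y)
  obtain ⟨g₀, hg₀⟩ := exists_ne (1 : L.G)
  obtain ⟨c, -, hc⟩ := hd g₀
  have c0 : (c : L.E) ≠ 0 := fun e => hg₀ (hL _ (sub_eq_zero.1 (hc.trans e)))
  obtain ⟨t, ht⟩ := Nat.exists_eq_add_of_le' (Fact.out : p.Prime).two_le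
  have hs : (g₀ ^ c ^ t) w - w = (1 : ℕ) := (cor_pow hc _).trans (mul_right_cancel₀ c0 (by
    push_cast
    rw [← pow_succ, ← pow_succ, ← ht, pb2_nat_pow, one_mul]))
  refine ⟨_, hs, orderOf_eq_prime (hL _ (sub_eq_zero.1 ?_)) fun e => ?_, fun g => ?_⟩
  · rw [cor_pow hs, mul_one, CharP.cast_eq_zero]
  · rw [e, AlgEquiv.one_apply, sub_self, Nat.cast_one] at hs
    exact zero_ne_one hs
  · obtain ⟨m, -, hm⟩ := hd g
    have e : g w = ((g₀ ^ c ^ t) ^ m) w := sub_left_injective (b := w) (by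
      beta_reduce
      rw [hm, cor_pow hs, mul_one])
    rw [eq_of_inv_mul_eq_one (hL (g⁻¹ * (g₀ ^ c ^ t) ^ m) (by
      rw [AlgEquiv.mul_apply, ← e]; exact g.symm_apply_apply w))]
    exact Subgroup.npow_mem_zpowers _ _

/-- a symbol vanishes if and only if `b` is a norm -/
theorem dlt_norm (hF : HB p F) (L : Lv F) {w : L.E} {y b : F} (hw : w ^ p - w = L.i y)
    (hL : ∀ g : L.G, g w = w → g = 1) (hb : b ≠ 0) :
    dlt p F (mq p (y • dlog b)) = 0 ↔ ∃ z : L.E, Algebra.norm F z = b := by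
  have hN : ∀ z : L.E, L.i (Algebra.norm F z) = ∏ g : L.G, g z :=
    Algebra.norm_eq_prod_automorphisms F
  rcases subsingleton_or_nontrivial L.G with h | h
  · obtain ⟨-, e⟩ := cor_symb1 hF L (Units.mk0 b hb) (n := fun _ => 0) (k := fun _ => 0) hw
      (fun g => by rw [Subsingleton.elim g 1]; simp) fun _ _ => by simp
    refine iff_of_true (e.trans ?_) ⟨L.i b, L.i.injective ?_⟩
    · simp only [zpow_zero]
      exact ZCy.F.cls_one
    · rw [hN, Fintype.prod_subsingleton _ 1]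
      rfl
  obtain ⟨s, hs, ho, hz⟩ := cor_gen L hw hL
  have hf : IsOfFinOrder s := isOfFinOrder_of_finite s
  have ca := fun g g' => ZCy.xp_carry hf (hz g) (hz g')
  obtain ⟨hc, e⟩ := cor_symb1 hF L (Units.mk0 b hb) (n := fun g => ZCy.xp s g) (k := fun q =>
    ((ZCy.xp s q.1 + ZCy.xp s q.2 - ZCy.xp s (q.1 * q.2)) / orderOf s : ℕ)) hw
    (fun g => by
      have := cor_pow hs (ZCy.xp s g)
      rwa [ZCy.xp_spec hf (hz g), mul_one, ← Int.cast_natCast] at this)
    fun g g' => by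
      rw [← Nat.cast_add, ca g g', Nat.cast_add, Nat.cast_mul, add_sub_cancel_left, ← ca, ho]
  simp only [zpow_natCast] at hc e
  refine (e ▸ ZCy.F.cls_eq_zero hc).trans ⟨fun ⟨f, hf'⟩ => ⟨f s, L.i.injective ?_⟩, fun ⟨z, h0⟩ => ?_⟩
  · have h1 : ∑ g : L.G, (ZCy.xp s g + ZCy.xp s s - ZCy.xp s (g * s)) / orderOf s = 1 := by
      have h2 := Finset.sum_congr (s₁ := Finset.univ) rfl fun g _ => ca g s
      have h3 : ZCy.xp s s = 1 := by
        have := ZCy.xp_pow hf 1
        rwa [pow_one, ho, Nat.mod_eq_of_lt (Fact.out : p.Prime).one_lt] at this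
      rw [Finset.sum_add_distrib, Finset.sum_add_distrib, ← Finset.mul_sum,
        show ∑ g, ZCy.xp s (g * s) = _ from Equiv.sum_comp (Equiv.mulRight s) _, Finset.sum_const,
        Finset.card_univ, ← Nat.card_eq_fintype_card, ← orderOf_eq_card_of_forall_mem_zpowers hz,
        smul_eq_mul, add_right_inj] at h2
      exact (Nat.eq_of_mul_eq_mul_left hf.orderOf_pos h2).symm.trans h3
    have h2 := Finset.prod_congr (s₁ := Finset.univ) rfl fun g _ => congrFun hf' (g, s)
    simp only [dd] at h2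
    rw [Finset.prod_pow_eq_pow_sum, h1, pow_one, Finset.prod_mul_distrib, Finset.prod_div_distrib,
      show ∏ g, f (g * s) = _ from Equiv.prod_comp (Equiv.mulRight s) f, div_mul_cancel] at h2
    rw [hN]
    exact ((congrArg Units.val h2).trans (Units.coe_prod _ _)).symm
  · have z0 : z ≠ 0 := Algebra.norm_ne_zero_iff.1 (h0 ▸ hb)
    obtain ⟨f, hf'⟩ := ZCy.cyc_norm hf (Units.mk0 z z0)
    refine ⟨f, funext fun q => Eq.trans ?_ (hf' _ (hz q.1) _ (hz q.2))⟩
    refine congrArg (· ^ _) (Units.ext ?_)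
    rw [Units.coe_prod]
    refine ((congrArg L.i h0).symm.trans (hN z)).trans (Finset.prod_nbij (fun i => s ^ i)
      (fun _ _ => Finset.mem_univ _) (Finset.coe_range _ ▸ pow_injOn_Iio_orderOf)
      (fun g _ => ⟨_, Finset.mem_coe.2 (Finset.mem_range.2 (ZCy.xp_lt hf g)),
        ZCy.xp_spec hf (hz g)⟩) fun _ _ => rfl).symm

variable {M : Type} [Field M] [Algebra F M] [FiniteDimensional F M] [Algebra.IsSeparable F M]
  [CharP M p]

omit [CharP F p] [CharP M p] in
theorem cor_trace (z : M) :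
    algebraMap F (SC F) (Algebra.trace F M z) = ∑ j : ZCy.F.Em F M, j.hom z := by
  apply (ZCy.F.SC.val F).injective
  let e : ZCy.F.Em F M ≃ (M →ₐ[F] AlgebraicClosure F) :=
    IntermediateField.algHomEquivAlgHomOfSplits (AlgebraicClosure F)
      (separableClosure F (AlgebraicClosure F)) fun x =>
        IsSepClosed.splits_codomain _ (Algebra.IsSeparable.isSeparable F x)
  refine ((ZCy.F.SC.val F).commutes _).trans ((trace_eq_sum_embeddings _).trans ?_)
  exact (Fintype.sum_equiv e _ _ fun _ => rfl).symm.trans (map_sum (ZCy.F.SC.val F) _ _).symm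

omit [Algebra.IsSeparable F M] [CharP M p] in
theorem cor_lc {X A : Type} [TopologicalSpace X] {f : X → ZCy.F.Em F M → A}
    (hf : ∀ j, IsLocallyConstant fun x => f x j) {g : X → ZCy.F.Gm F} (hg : Continuous g)
    (j : ZCy.F.Em F M) : IsLocallyConstant fun x => f x ((g x)⁻¹ • j) :=
  ((ZCy.lc_pi hf).prodMk ((ZCy.F.em_lc j).comp_continuous hg.inv)).comp fun z => z.1 z.2

/-- corestriction of a symbol -/
theorem cor_symb (hF : HB p F) (z : M) (b : Fˣ) :
    ZCy.F.cor F M (dlt p M (mq p (z • dlog (algebraMap F M b)))) =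
      dlt p F (mq p (Algebra.trace F M z • dlog (b : F))) := by
  choose w hw using fun j : ZCy.F.Em F M => as_root (p := p) (j.hom z)
  let N : SC F → ℤ := fun x => if h : ∃ n : ℤ, x = n then h.choose else 0
  let n : ZCy.F.Gm F → ZCy.F.Em F M → ℤ := fun g j => N (g (w (g⁻¹ • j)) - w j)
  have hn : ∀ g j, g (w (g⁻¹ • j)) - w j = n g j := fun g j => by
    obtain ⟨m, -, hm⟩ := as_diff (p := p) (w := g (w (g⁻¹ • j))) (w' := w j) (by
      rw [← map_pow, ← map_sub, hw, hw, ← ZCy.F.Em.smul_hom, smul_inv_smul])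
    have h : ∃ m : ℤ, g (w (g⁻¹ • j)) - w j = m := ⟨m, hm.trans (Int.cast_natCast m).symm⟩
    exact h.choose_spec.trans (congrArg _ (dif_pos h).symm)
  have ln : ∀ j, IsLocallyConstant fun g => n g j := fun j =>
    (cor_lc (f := fun (g : ZCy.F.Gm F) j => g (w j)) (fun j => ZCy.lc_apply (w j))
      continuous_id j).comp fun x => N (x - w j)
  let k : ZCy.F.Gm F × ZCy.F.Gm F → ZCy.F.Em F M → ℤ := fun q j =>
    (n q.1 j + n q.2 (q.1⁻¹ • j) - n (q.1 * q.2) j) / p
  have hk : ∀ g h j, p * k (g, h) j = n g j + n h (g⁻¹ • j) - n (g * h) j := fun g h j =>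
    cor_div (E := SC F) (by
      rw [Int.cast_sub, Int.cast_add, ← map_intCast g (n h _), ← hn, ← hn, ← hn, mul_inv_rev,
        mul_smul, map_sub, AlgEquiv.mul_apply]
      ring)
  let B := Units.map (algebraMap F (SC F) : F →* SC F) b
  let c : ZCy.F.Gm F × ZCy.F.Gm F → ZCy.Ind (SC F)ˣ (ZCy.F.Em F M) := fun q j => B ^ k q j
  have hc : IsMulCocycle₂ c := fun g h i => funext fun j => by
    change B ^ k (g * h, i) j * B ^ k (g, h) j = g • B ^ k (h, i) (g⁻¹ • j) * B ^ k (g, h * i) j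
    rw [smul_zpow', show g • B = B from Units.ext (g.commutes (b : F)), ← zpow_add, ← zpow_add]
    refine congrArg _ (cor_cancel (p := p) ?_)
    rw [mul_add, mul_add, hk, hk, hk, hk, mul_inv_rev, mul_smul, mul_assoc]
    ring
  have lc : IsLocallyConstant c := ZCy.lc_pi fun j =>
    (((ln j).comp_continuous continuous_fst).prodMk ((cor_lc (f := fun q j => n q.2 j)
      (fun j => (ln j).comp_continuous continuous_snd) continuous_fst j).prodMk
        ((ln j).comp_continuous continuous_mul))).comp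
      fun a => B ^ ((a.1 + a.2.1 - a.2.2) / p)
  let j₀ : ZCy.F.Em F M := (IsSepClosed.lift : M →ₐ[F] SC F)
  obtain ⟨J, r, -, hJ, hr, hst, -, hrc, -⟩ := ZCy.F.em_link j₀
  have fx : ∀ g, (r g)⁻¹ • j₀ = j₀ := fun g => inv_mem (hst g)
  have hM := (dlt_cl (hF.ext M) (w := J (w j₀)) (y := z) (Units.map (algebraMap F M : F →* M) b)
    (n := fun g => n (r g) j₀) (k := fun q => k (r q.1, r q.2) j₀)
    (by rw [← map_pow, ← map_sub, hw, hJ])
    (fun g => by rw [← hr, ← map_sub, ← map_intCast J, ← hn, fx])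
    (fun g g' => by rw [hk, fx, ZCy.lk_mul (j := (J : SC F →+* SC M)) (r := r) hr])
    ((ln j₀).comp_continuous hrc)).2
  have sh := ZCy.F.shap_of_cmp hc lc (J := (J : SC F →+* SC M)) hJ hr (hM.trans (congrArg _
    (funext fun q => Eq.trans (congrArg (· ^ _) (Units.ext ((hJ _).symm.trans (congrArg J
      (j₀.hom.commutes (b : F)))) : _ = Units.map ((J : SC F →+* SC M) : SC F →* SC M) B))
      (map_zpow _ B _).symm)))
  have rs : ∀ {A : Type} [AddCommMonoid A] (g : ZCy.F.Gm F) (f : ZCy.F.Em F M → A),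
      ∑ j, f (g⁻¹ • j) = ∑ j, f j := fun g f => Equiv.sum_comp (MulAction.toPerm g⁻¹) f
  refine sh.corF_eq.trans (Eq.trans (congrArg _ (funext fun q => ?_)) (dlt_cl hF
    (w := ∑ j, w j) b (n := fun g => ∑ j, n g j) (k := fun q => ∑ j, k q j) ?_ (fun g => ?_)
      (fun g g' => ?_) ((ZCy.lc_pi ln).comp fun f => ∑ j, f j)).2.symm)
  · exact (map_prod (zpowersHom _ B) (fun j => Multiplicative.ofAdd (k q j)) _).symm
  · rw [cor_trace, sum_pow_char, ← Finset.sum_sub_distrib]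
    exact Finset.sum_congr rfl fun j _ => hw j
  · rw [Int.cast_sum, map_sum, ← rs g fun j => g (w j), ← Finset.sum_sub_distrib]
    exact Finset.sum_congr rfl fun j _ => hn g j
  · rw [Finset.mul_sum, ← rs g (n g'), ← Finset.sum_add_distrib, ← Finset.sum_sub_distrib]
    exact Finset.sum_congr rfl fun j _ => hk g g' j

theorem cor_dlt (hF : HB p F) (z : M) (ω : Om F) :
    ZCy.F.cor F M (dlt p M (mq p (z • pb (algebraMap F M) ω))) =
      dlt p F (mq p (Algebra.trace F M z • ω)) := by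
  induction ω using om_ind with
  | h0 => simp only [map_zero, smul_zero]
  | h2 x y hx hy => simp only [map_add, smul_add, hx, hy]
  | h1 a b =>
    rcases eq_or_ne b 0 with rfl | hb
    · simp only [map_zero, smul_zero]
    have h := cor_symb hF ((a * b) • z) (Units.mk0 b hb)
    rw [LinearMap.map_smul, smul_eq_mul, Algebra.smul_def, mul_comm, mul_comm (a * b)] at h
    rw [← smul_dlog hb, smul_smul, pb_smul, pb_dlog, smul_smul, smul_smul]
    exact h

end Pool.Agent.ZFd
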