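import Pool.Agent.Lib.MP_751085_ag.ZF.D.Defs
import Pool.Agent.Lib.MP_751085_ag.ZF.EDefs

/-! Galois coverings inside a field, classes attached to forms. -/

namespace Pool.Agent.ZFd

open scoped Classical Pool.Agent.ZCy.F
open groupCohomology
open Pool.Agent.ZCy (dd pull cl)
open Pool.Agent.ZCy.F (BR SC cls rs UC Loc)

/-- a finite Galois extension -/
structure Lv (F : Type) [Field F] : Type 1 where
  E : Type
  [fld : Field E]
  [alg : Algebra F E]
  [fin : FiniteDimensional F E]
  [gal : IsGalois F E]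

attribute [instance] Lv.fld Lv.alg Lv.fin Lv.gal

variable {F : Type} [Field F]

/-- the Galois group -/
abbrev Lv.G (L : Lv F) : Type := L.E ≃ₐ[F] L.E

/-- the inclusion -/
abbrev Lv.i (L : Lv F) : F →+* L.E := algebraMap F L.E

instance (L : Lv F) (p : ℕ) [CharP F p] : CharP L.E p :=
  charP_of_injective_algebraMap (algebraMap F L.E).injective p

instance (p : ℕ) [CharP F p] : CharP (SC F) p :=
  charP_of_injective_algebraMap (algebraMap F (SC F)).injective p

/-- `O` is integrally closed in `F` -/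
def Nm (O : Subring F) : Prop := ∀ z : F, IsIntegral O z → z ∈ O

/-- `F` is the fraction field of `O` -/
def Fc (O : Subring F) : Prop := ∀ z : F, ∃ s ∈ O, s ≠ 0 ∧ s * z ∈ O

/-- the integral closure -/
def ic (O : Subring F) (L : Lv F) : Subring L.E := (integralClosure O L.E).toSubring

/-- `B` is a Galois covering of `O` with the full Galois group -/
structure GalR (O : Subring F) (L : Lv F) (B : Subring L.E) : Prop where
  inv : ∀ a : F, L.i a ∈ B ↔ a ∈ O
  act : ∀ g : L.G, ∀ b ∈ B, g b ∈ B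
  chr : ∃ (m : ℕ) (x y : Fin m → L.E), (∀ t, x t ∈ B) ∧ (∀ t, y t ∈ B) ∧
    ∀ g : L.G, ∑ t, x t * g (y t) = if g = 1 then 1 else 0

/-- a cocycle with values in the units of `B` -/
structure Cc (L : Lv F) (B : Subring L.E) (c : L.G × L.G → L.Eˣ) : Prop where
  coc : IsMulCocycle₂ c
  un : ∀ q, Un B (c q : L.E)

/-- the covering with its cocycle -/
noncomputable def GalR.uc {O : Subring F} {L : Lv F} {B : Subring L.E} (h : GalR O L B)
    {c : L.G × L.G → L.Eˣ} (hc : Cc L B c) : UC O :=
  haveI : IsInvariantSubring L.G B := ⟨fun g _ hb => h.act g _ hb⟩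
  { G := L.G
    A := B
    i := L.i.restrict O B fun a ha => (h.inv a).2 ha
    inj := fun _ _ e => Subtype.ext (L.i.injective (congrArg Subtype.val e))
    inv := fun y => ⟨fun ⟨a, e⟩ g => Subtype.ext (by
        rw [← e]
        exact g.commutes a),
      fun e => by
        obtain ⟨a, ha⟩ := (IsGalois.mem_range_algebraMap_iff_fixed (F := F) (y : L.E)).2
          fun g => congrArg Subtype.val (e g)
        exact ⟨⟨a, (h.inv a).1 (ha ▸ y.2)⟩, Subtype.ext ha⟩⟩
    crd := by
      obtain ⟨m, x, y, hx, hy, e⟩ := h.chr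
      refine ⟨m, fun t => ⟨x t, hx t⟩, fun t => ⟨y t, hy t⟩, fun g => Subtype.ext ?_⟩
      rw [AddSubmonoidClass.coe_finsetSum]
      refine (e g).trans ?_
      split_ifs <;> rfl
    c := fun q => ⟨⟨c q, (hc.un q).1⟩, ⟨(c q : L.E)⁻¹, (hc.un q).2.2⟩,
      Subtype.ext (mul_inv_cancel₀ (c q).ne_zero), Subtype.ext (inv_mul_cancel₀ (c q).ne_zero)⟩
    coc := fun g g' j => Units.ext (Subtype.ext (congrArg Units.val (hc.coc g g' j))) }

/-- the cocycle `c` and the class `x` of forms are linked through `e` and `θ` -/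
structure Rp (p : ℕ) (L : Lv F) (c : L.G × L.G → L.Eˣ) (e : L.G → L.Eˣ) (θ : Om L.E)
    (x : Qm p F) : Prop where
  coc : IsMulCocycle₂ c
  pw : c ^ p = dd e
  lg : ∀ g : L.G, dlog (e g : L.E) = pb (g : L.E →+* L.E) θ - θ
  wp : wp p θ = pbQ p L.i x

/-- `a` is the class attached to `x` -/
def Rep (p : ℕ) (a : BR F) (x : Qm p F) : Prop :=
  ∃ (L : Lv F) (c : L.G × L.G → L.Eˣ) (e : L.G → L.Eˣ) (θ : Om L.E),
    Rp p L c e θ x ∧ cls F c = a

/-- the map from forms to the Brauer group -/
noncomputable def dlt (p : ℕ) (F : Type) [Field F] : Qm p F →+ BR F :=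
  if h : ∃ δ : Qm p F →+ BR F, ∀ x, Rep p (δ x) x then h.choose else 0

/-- the field has a finite `p`-basis -/
def HB (p : ℕ) (F : Type) [Field F] : Prop := ∃ (m : ℕ) (u : Fin m → F), PB p ⊤ u

end Pool.Agent.ZFd
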