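import Pool.Agent.Lib.MP_751085_ag.ZF.B.Gal2

/-! Galois descent for forms. -/

namespace Pool.Agent.ZFd

open scoped Classical Pool.Agent.ZCy.F
open groupCohomology
open Pool.Agent.ZCy (dd pull cl)
open Pool.Agent.ZCy.F (BR SC cls rs UC Loc)

variable {F : Type} [Field F] {O : Subring F} {L : Lv F} {B : Subring L.E} {p : ℕ}

/-- the action on forms -/
noncomputable abbrev Lv.po (L : Lv F) (g : L.G) : Om L.E →+ Om L.E := pb (g : L.E →+* L.E)

/-- the action on classes of forms -/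
noncomputable abbrev Lv.pq (L : Lv F) (p : ℕ) (g : L.G) : Qm p L.E →+ Qm p L.E :=
  pbQ p (g : L.E →+* L.E)

theorem Lv.po_mul (L : Lv F) (g h : L.G) (θ : Om L.E) : L.po (g * h) θ = L.po g (L.po h θ) :=
  (congrArg (pb · θ) (RingHom.ext fun _ => rfl)).trans
    (pb_comp (h : L.E →+* L.E) (g : L.E →+* L.E) θ).symm

theorem Lv.po_one (L : Lv F) (θ : Om L.E) : L.po 1 θ = θ := pb_id θ

theorem Lv.po_fix (L : Lv F) (g : L.G) (ω : Om F) : L.po g (pb L.i ω) = pb L.i ω :=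
  (pb_comp _ _ ω).trans (congrArg (pb · ω) (RingHom.ext g.commutes))

theorem Lv.pq_mul (L : Lv F) (g h : L.G) (y : Qm p L.E) :
    L.pq p (g * h) y = L.pq p g (L.pq p h y) :=
  (congrArg (pbQ p · y) (RingHom.ext fun _ => rfl)).trans
    (pbQ_comp (h : L.E →+* L.E) (g : L.E →+* L.E) y).symm

theorem Lv.pq_one (L : Lv F) (y : Qm p L.E) : L.pq p 1 y = y := pbQ_id y

theorem Lv.pq_fix (L : Lv F) (g : L.G) (x : Qm p F) : L.pq p g (pbQ p L.i x) = pbQ p L.i x :=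
  (pbQ_comp _ _ x).trans (congrArg (pbQ p · x) (RingHom.ext g.commutes))

theorem Lv.dlog_smul (L : Lv F) (g : L.G) (u : L.Eˣ) :
    dlog ((g • u : L.Eˣ) : L.E) = L.po g (dlog (u : L.E)) :=
  (pb_dlog (g : L.E →+* L.E) (u : L.E)).symm

theorem Lv.dlog_dd (L : Lv F) (e : L.G → L.Eˣ) (g h : L.G) : dlog ((dd e (g, h) : L.Eˣ) : L.E) =
    L.po g (dlog (e h : L.E)) - dlog (e (g * h) : L.E) + dlog (e g : L.E) := by
  rw [dd, Units.val_mul, Units.val_div_eq_div_val,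
    dlog_mul (div_ne_zero (Units.ne_zero _) (Units.ne_zero _)) (Units.ne_zero _),
    dlog_div (Units.ne_zero _) (Units.ne_zero _), L.dlog_smul]

section

variable {W : Type} [AddCommGroup W] [Module L.E W] (T : L.G → W →+ W) (S : AddSubgroup W)
  (h : GalR O L B) (hT : ∀ g g' x, T (g * g') x = T g (T g' x))
  (hs : ∀ g (b : L.E) x, T g (b • x) = g b • T g x) (hS : ∀ b ∈ B, ∀ x ∈ S, b • x ∈ S)
include h hT hs hS

/-- with `w` of trace one: `θ = -∑ k, k w • ψ k` -/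
theorem GalR.h1 {ψ : L.G → W} (hψ : ∀ g, ψ g ∈ S) (H : ∀ g g', ψ (g * g') = T g (ψ g') + ψ g) :
    ∃ θ ∈ S, ∀ g, ψ g = T g θ - θ := by
  have _ := hT
  obtain ⟨w, hw, e⟩ := h.trace_one
  refine ⟨-∑ k : L.G, k w • ψ k, neg_mem (sum_mem fun k _ => hS _ (h.act k w hw) _ (hψ k)),
    fun g => ?_⟩
  have h1 : ∑ k : L.G, T g (k w • ψ k) = ∑ k : L.G, k w • (ψ k - ψ g) :=
    Fintype.sum_equiv (Equiv.mulLeft g) _ _ fun k => by
      rw [hs, Equiv.coe_mulLeft, H, add_sub_cancel_right]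
      rfl
  rw [map_neg, map_sum, h1]
  simp only [smul_sub, Finset.sum_sub_distrib, ← Finset.sum_smul, e, one_smul]
  abel

/-- `χ g = ∑ k, (g * k) w • ψ (g, k)` -/
theorem GalR.h2 {ψ : L.G × L.G → W} (hψ : ∀ q, ψ q ∈ S)
    (H : ∀ g g' k, ψ (g * g', k) + ψ (g, g') = T g (ψ (g', k)) + ψ (g, g' * k)) :
    ∃ χ : L.G → W, (∀ g, χ g ∈ S) ∧ ∀ g g', ψ (g, g') = T g (χ g') - χ (g * g') + χ g := by
  have _ := hT
  obtain ⟨w, hw, e⟩ := h.trace_one
  refine ⟨fun g => ∑ k : L.G, (g * k) w • ψ (g, k),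
    fun g => sum_mem fun k _ => hS _ (h.act _ w hw) _ (hψ _), fun g g' => ?_⟩
  have h1 : ∑ k : L.G, (g * k) w • ψ (g, k) = ∑ k : L.G, (g * g' * k) w • ψ (g, g' * k) :=
    (Fintype.sum_equiv (Equiv.mulLeft g') _ _ fun k => by rw [Equiv.coe_mulLeft, mul_assoc]).symm
  have h2 : ∑ k : L.G, (g * g' * k) w = 1 :=
    (Fintype.sum_equiv (Equiv.mulLeft (g * g')) _ _ fun k => rfl).trans e
  have h3 : ∀ k : L.G, T g ((g' * k) w • ψ (g', k)) = (g * g' * k) w • ψ (g * g', k) +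
      (g * g' * k) w • ψ (g, g') - (g * g' * k) w • ψ (g, g' * k) := fun k => by
    rw [← smul_add, ← smul_sub, H, add_sub_cancel_right, hs]
    rfl
  simp only [map_sum, h1, h3, Finset.sum_sub_distrib, Finset.sum_add_distrib, ← Finset.sum_smul, h2,
    one_smul]
  abel

end

theorem GalR.po_mem (h : GalR O L B) (g : L.G) {θ : Om L.E} (hθ : θ ∈ OmS B) :
    L.po g θ ∈ OmS B := pb_mem_OmS _ (h.act g) hθ

variable [Fact p.Prime] [CharP F p] {ι : Type} [Fintype ι] {u : ι → F}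

/-- the coordinates are invariant (`PB.co_aut`) and lie in `B` (`GalR.pbs`, `PB.mem_OmS`) -/
theorem GalR.inv_om (h : GalR O L B) (hu : PB p O u) {θ : Om L.E} (hθ : θ ∈ OmS B)
    (H : ∀ g, L.po g θ = θ) : ∃ ω ∈ OmS O, pb L.i ω = θ := by
  have hB := h.pbs hu
  choose a ha using fun i => (IsGalois.mem_range_algebraMap_iff_fixed (F := F)
    (co (fun i => L.i (u i)) i θ)).2 fun g => by rw [← hu.co_aut g, H]
  refine ⟨∑ i, a i • dK (u i), sum_mem fun i _ => smul_d_mem ((h.inv _).1 ?_) (hu.mem i), ?_⟩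
  · rw [ha]
    exact hB.mem_OmS.1 hθ i
  · rw [map_sum, ← hB.sum_co θ]
    exact Finset.sum_congr rfl fun i _ => by rw [pb_smul_d, ha]

/-- `y = ∑ g, L.pq p g (w • y)` is the class of the invariant form `∑ g, L.po g (w ^ p • θ)` -/
theorem GalR.inv_q (h : GalR O L B) (hu : PB p O u) {y : Qm p L.E} (hy : y ∈ QS p B)
    (H : ∀ g, L.pq p g y = y) : ∃ x ∈ QS p O, pbQ p L.i x = y := by
  obtain ⟨w, hw, e⟩ := h.trace_one
  obtain ⟨θ, hθ, rfl⟩ := mem_QS.1 hy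
  obtain ⟨ω, hω, e'⟩ := h.inv_om hu (θ := ∑ g : L.G, L.po g (w ^ p • θ))
    (sum_mem fun g _ => h.po_mem g (OmS_smul (pow_mem hw p) hθ)) fun g => by
      rw [map_sum]
      exact Fintype.sum_equiv (Equiv.mulLeft g) _ _ fun k => (L.po_mul g k _).symm
  refine ⟨mq p ω, mq_mem hω, ?_⟩
  have h1 : ∀ g : L.G, mq p (L.po g (w ^ p • θ)) = g w • mq p θ := fun g => by
    rw [← pbQ_mq, ← smul_mq, pbQ_smul, H g]
    rfl
  rw [pbQ_mq, e', map_sum]
  simp only [h1, ← Finset.sum_smul, e, one_smul]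

/-- if `pb ω = dK z` then `pb ω = dK (∑ g, g (w ^ p * z))`; `pb_ext_inj` -/
theorem Lv.pbQ_inj (L : Lv F) : Function.Injective (pbQ p L.i) := by
  rw [injective_iff_map_eq_zero]
  intro x hx
  obtain ⟨ω, rfl⟩ := mq_surj p x
  obtain ⟨z, hz⟩ := mem_Ex.1 (mq_eq_zero.1 ((pbQ_mq p _ ω).symm.trans hx))
  obtain ⟨w, -, e⟩ := (galR_top L).trace_one
  refine mq_eq_zero.2 (mem_Ex.2 ⟨Algebra.trace F L.E (w ^ p * z), pb_ext_inj (E := L.E) ?_⟩)
  have h1 : ∀ g : L.G, dK (g (w ^ p * z)) = g w ^ p • pb L.i ω := fun g => by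
    refine (pb_d (g : L.E →+* L.E) _).symm.trans ?_
    rw [d_pow_p_mul, hz, pb_smul, map_pow, L.po_fix]
    rfl
  rw [pb_d, L.i_trace, map_sum]
  simp only [h1, ← Finset.sum_smul]
  rw [← sum_pow_char, e, one_pow, one_smul]

end Pool.Agent.ZFd
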