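import Pool.Agent.Lib.MP_751085_ag.ZF.B.Defs
import Pool.Agent.Lib.MP_751085_ag.ZF.D.Ufd

/-! Galois coverings: traces, integrality. -/

namespace Pool.Agent.ZFd

open scoped Classical Pool.Agent.ZCy.F
open groupCohomology
open Pool.Agent.ZCy (dd pull cl)
open Pool.Agent.ZCy.F (BR SC cls rs UC Loc)

variable {F : Type} [Field F] {O O' : Subring F} {L : Lv F} {B : Subring L.E} {b : L.E}

theorem nm_top : Nm (⊤ : Subring F) := fun _ _ => trivial

theorem fc_top : Fc (⊤ : Subring F) := fun _ => ⟨1, trivial, one_ne_zero, trivial⟩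

theorem gal1_mono {A : Type} [CommRing A] [Algebra F A] {a : A} (hle : O ≤ O')
    (h : IsIntegral O a) : IsIntegral O' a :=
  let ⟨q, hq, e⟩ := h
  ⟨q.map (Subring.inclusion hle), hq.map _, (Polynomial.eval₂_map _ _ _).trans e⟩

theorem Sm.nm {p m : ℕ} [Fact p.Prime] [CharP F p] (h : Sm p m O) : Nm O := fun z hz =>
  (qc_ring O).glob.2 fun O' hO' => by
    have := (h.reg hO').ufd
    have : IsFractionRing O' F := IsFractionRing.of_field O' F fun w => by
      obtain ⟨s, h1, h2, h3⟩ := (h.reg hO').1.frac w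
      exact ⟨⟨_, h3⟩, ⟨s, h1⟩, (mul_div_cancel_left₀ w h2).symm⟩
    obtain ⟨y, rfl⟩ := IsIntegrallyClosed.isIntegral_iff.1 (gal1_mono hO'.le hz)
    exact y.2

theorem mem_ic : b ∈ ic O L ↔ IsIntegral O b := Iff.rfl

theorem Lv.i_trace (L : Lv F) (b : L.E) : L.i (Algebra.trace F L.E b) = ∑ g : L.G, g b :=
  trace_eq_sum_automorphisms b

theorem GalR.tr_mem (h : GalR O L B) (hb : b ∈ B) : Algebra.trace F L.E b ∈ O :=
  (h.inv _).1 (L.i_trace b ▸ sum_mem fun g _ => h.act g b hb)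

theorem chr_expand {m : ℕ} {x y : Fin m → L.E}
    (e : ∀ g : L.G, ∑ t, x t * g (y t) = if g = 1 then 1 else 0) (z : L.E) :
    ∑ t, x t * L.i (Algebra.trace F L.E (y t * z)) = z := by
  simp only [Lv.i_trace, map_mul, Finset.mul_sum]
  rw [Finset.sum_comm]
  simp [← mul_assoc, ← Finset.sum_mul, e]

/-- the covering as an algebra -/
def gal1_alg (h : GalR O L B) : Subalgebra O L.E :=
  { B with algebraMap_mem' := fun a => (h.inv a).2 a.2 }

theorem gal1_sum (h : GalR O L B) {m : ℕ} {x y : Fin m → L.E} (hy : ∀ t, y t ∈ B)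
    (e : ∀ g : L.G, ∑ t, x t * g (y t) = if g = 1 then 1 else 0) (hb : b ∈ B) :
    b = ∑ t, (⟨_, h.tr_mem (mul_mem (hy t) hb)⟩ : O) • x t :=
  (chr_expand e b).symm.trans (Finset.sum_congr rfl fun _ _ =>
    (mul_comm _ _).trans (Algebra.smul_def _ _).symm)

theorem gal1_fg (h : GalR O L B) : (gal1_alg h).toSubmodule.FG := by
  obtain ⟨m, x, y, hx, hy, e⟩ := h.chr
  refine Submodule.fg_def.2 ⟨_, Set.finite_range x, le_antisymm
    (Submodule.span_le.2 (Set.range_subset_iff.2 hx)) fun z hz => ?_⟩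
  rw [gal1_sum h hy e hz]
  exact sum_mem fun t _ => Submodule.smul_mem _ _ (Submodule.subset_span ⟨t, rfl⟩)

theorem GalR.integral (h : GalR O L B) (hb : b ∈ B) : IsIntegral O b :=
  .of_mem_of_fg _ (gal1_fg h) b hb

theorem galR_ic (hO : Nm O) {m : ℕ} {x y : Fin m → L.E} (hx : ∀ t, IsIntegral O (x t))
    (hy : ∀ t, IsIntegral O (y t))
    (e : ∀ g : L.G, ∑ t, x t * g (y t) = if g = 1 then 1 else 0) : GalR O L (ic O L) :=
  ⟨fun a => (isIntegral_algebraMap_iff L.i.injective).trans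
      ⟨hO a, fun ha => isIntegral_algebraMap (x := (⟨a, ha⟩ : O))⟩,
    fun g _ hb => IsIntegral.map (g.restrictScalars O).toAlgHom hb, m, x, y, hx, hy, e⟩

theorem GalR.eq_ic (h : GalR O L B) (hO : Nm O) : B = ic O L := by
  obtain ⟨m, x, y, hx, hy, e⟩ := h.chr
  have h' := galR_ic hO (fun t => h.integral (hx t)) (fun t => h.integral (hy t)) e
  refine le_antisymm (fun _ => h.integral) fun z hz => ?_
  rw [← chr_expand e z]
  exact sum_mem fun t _ => mul_mem (hx t)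
    ((h.inv _).2 (h'.tr_mem (mul_mem (h.integral (hy t)) hz)))

theorem GalR.mono (h : GalR O L B) (hle : O ≤ O') (hO : Nm O') :
    GalR O' L (ic O' L) ∧ B ≤ ic O' L :=
  let ⟨_, _, _, hx, hy, e⟩ := h.chr
  ⟨galR_ic hO (fun t => gal1_mono hle (h.integral (hx t)))
    (fun t => gal1_mono hle (h.integral (hy t))) e, fun _ hb => gal1_mono hle (h.integral hb)⟩

theorem chr_of_ine (act : ∀ g : L.G, ∀ b ∈ B, g b ∈ B)
    (H : ∀ g : L.G, g ≠ 1 → ∃ (m : ℕ) (x y : Fin m → L.E), (∀ t, x t ∈ B) ∧ (∀ t, y t ∈ B) ∧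
      ∑ t, x t * (y t - g (y t)) = 1) :
    ∃ (m : ℕ) (x y : Fin m → L.E), (∀ t, x t ∈ B) ∧ (∀ t, y t ∈ B) ∧
      ∀ g : L.G, ∑ t, x t * g (y t) = if g = 1 then 1 else 0 := by
  let T : Submonoid (L.G → L.E) := B.toSubmonoid.map
    (MonoidHom.pi fun σ : L.G => (σ : L.E →* L.E))
  have h1 : ∀ g : L.G, ∃ f ∈ Algebra.adjoin B (T : Set (L.G → L.E)), g ≠ 1 → f 1 = 1 ∧ f g = 0 := by
    intro g
    by_cases hg : g = 1
    · exact ⟨1, one_mem _, fun h => absurd hg h⟩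
    obtain ⟨m, x, y, hx, hy, e⟩ := H g hg
    refine ⟨∑ t, (⟨x t, hx t⟩ : B) • ((fun σ => σ (y t)) -
      algebraMap B _ (⟨_, act g _ (hy t)⟩ : B)), sum_mem fun t _ => Subalgebra.smul_mem _ (sub_mem
        (Algebra.subset_adjoin (Submonoid.mem_map_of_mem _ (hy t)))
        (Subalgebra.algebraMap_mem _ _)) _,
      fun _ => ⟨?_, ?_⟩⟩
    · rw [Finset.sum_apply]
      exact e
    · rw [Finset.sum_apply]
      exact Finset.sum_eq_zero fun t _ => mul_eq_zero_of_right (x t) (sub_self (g (y t)))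
  choose f h1 h2 using h1
  have h3 : ∏ g ∈ Finset.univ.erase 1, f g ∈
      (Algebra.adjoin B (T : Set (L.G → L.E))).toSubmodule :=
    Subalgebra.prod_mem _ fun g _ => h1 g
  rw [Algebra.adjoin_eq_span, Submonoid.closure_eq] at h3
  obtain ⟨m, x, z, e⟩ := Submodule.mem_span_set'.1 h3
  choose y hy hz using fun t => (z t).2
  refine ⟨m, fun t => x t, y, fun t => (x t).2, hy, fun g => ?_⟩
  have h4 := congrFun e g
  rw [Finset.sum_apply, Finset.prod_apply] at h4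
  refine ((Finset.sum_congr rfl fun t _ => ?_).trans h4).trans ?_
  · rw [← hz t]
    rfl
  · split_ifs with hg
    · exact Finset.prod_eq_one fun g' hg' => hg ▸ (h2 g' (Finset.ne_of_mem_erase hg')).1
    · exact Finset.prod_eq_zero (Finset.mem_erase.2 ⟨hg, Finset.mem_univ g⟩) (h2 g hg).2

theorem GalR.ine (h : GalR O L B) {g : L.G} (hg : g ≠ 1) : ∃ (m : ℕ) (x y : Fin m → L.E),
    (∀ t, x t ∈ B) ∧ (∀ t, y t ∈ B) ∧ ∑ t, x t * (y t - g (y t)) = 1 := by
  obtain ⟨m, x, y, hx, hy, e⟩ := h.chr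
  refine ⟨m, x, y, hx, hy, ?_⟩
  have h1 := e 1
  simp only [AlgEquiv.one_apply, if_true] at h1
  simp only [mul_sub, Finset.sum_sub_distrib, h1, e g, if_neg hg, sub_zero]

theorem galR_top (L : Lv F) : GalR ⊤ L ⊤ :=
  ⟨fun _ => Iff.rfl, fun _ _ _ => trivial, chr_of_ine (fun _ _ _ => trivial) fun g hg => by
    obtain ⟨z, hz⟩ := not_forall.1 fun e => hg (AlgEquiv.ext e)
    exact ⟨1, fun _ => (z - g z)⁻¹, fun _ => z, fun _ => trivial, fun _ => trivial,
      (Fin.sum_univ_one _).trans (inv_mul_cancel₀ (sub_ne_zero.2 (Ne.symm hz)))⟩⟩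

theorem GalR.eq_top (h : GalR ⊤ L B) : B = ⊤ :=
  (h.eq_ic nm_top).trans ((galR_top L).eq_ic nm_top).symm

theorem GalR.trace_one (h : GalR O L B) : ∃ w ∈ B, ∑ g : L.G, g w = 1 := by
  let J : Ideal O :=
    { carrier := {a | ∃ w ∈ B, Algebra.trace F L.E w = a}
      add_mem' := fun ⟨w, h1, e⟩ ⟨w', h2, e'⟩ => ⟨_, add_mem h1 h2, by rw [map_add, e, e']; rfl⟩
      zero_mem' := ⟨0, zero_mem _, map_zero _⟩
      smul_mem' := fun c _ ⟨w, h1, e⟩ => ⟨(c : F) • w, (gal1_alg h).smul_mem h1 c, by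
        rw [map_smul, e]; rfl⟩ }
  obtain ⟨m, x, y, hx, hy, e⟩ := h.chr
  obtain ⟨r, ⟨w, h1, h2⟩, h3⟩ := Submodule.exists_sub_one_mem_and_smul_eq_zero_of_fg_of_le_smul J _
    (gal1_fg h) fun z hz => by
      rw [gal1_sum h hy e hz]
      exact sum_mem fun t _ => Submodule.smul_mem_smul ⟨_, mul_mem (hy t) hz, rfl⟩ (hx t)
  have h4 : L.i r = 0 := (Algebra.algebraMap_eq_smul_one (r : F)).trans (h3 1 (one_mem B))
  refine ⟨-w, neg_mem h1, ?_⟩
  rw [← L.i_trace, map_neg, h2, map_neg, AddSubgroupClass.coe_sub, map_sub, h4]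
  simp

theorem GalR.frac (h : GalR O L B) (hO : Fc O) : Fc B := fun z => by
  obtain ⟨m, x, y, hx, -, e⟩ := h.chr
  obtain ⟨s, h1, h2, h3⟩ := (isLoc_top hO).common
    (z := fun t => Algebra.trace F L.E (y t * z)) fun _ => trivial
  refine ⟨L.i s, (h.inv s).2 h1, (map_ne_zero _).2 h2.2.1, ?_⟩
  rw [← chr_expand e z, Finset.mul_sum]
  refine sum_mem fun t _ => ?_
  rw [mul_left_comm, ← map_mul]
  exact mul_mem (hx t) ((h.inv _).2 (h3 t))

theorem GalR.un_act (h : GalR O L B) (g : L.G) (hb : Un B b) : Un B (g b) :=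
  ⟨h.act g b hb.1, (map_ne_zero g).2 hb.2.1, map_inv₀ g b ▸ h.act g _ hb.2.2⟩

/-- the trivial extension -/
noncomputable def Lv.self (F : Type) [Field F] : Lv F := ⟨F⟩

theorem galR_self (O : Subring F) : GalR O (Lv.self F) O :=
  ⟨fun _ => Iff.rfl, fun g b hb => (g.commutes b).symm ▸ hb, 1, fun _ => 1, fun _ => 1,
    fun _ => one_mem _, fun _ => one_mem _, fun g => by
      rw [if_pos (AlgEquiv.ext g.commutes), Fin.sum_univ_one, map_one, mul_one]⟩

end Pool.Agent.ZFd
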