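import Pool.Agent.Lib.MP_751085_ag.ZF.B.Gal1
import Pool.Agent.Lib.MP_751085_ag.ZF.D.PB4

/-! Galois coverings: finiteness, `p`-bases, factoriality. -/

namespace Pool.Agent.ZFd

open scoped Classical Pool.Agent.ZCy.F
open groupCohomology
open Pool.Agent.ZCy (dd pull cl)
open Pool.Agent.ZCy.F (BR SC cls rs UC Loc)

variable {F : Type} [Field F] {O : Subring F} {L : Lv F} {B : Subring L.E} {p m : ℕ}

theorem gal2_fin (h : GalR O L B) : (L.i.restrict O B fun a ha => (h.inv a).2 ha).Finite := by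
  let := (L.i.restrict O B fun a ha => (h.inv a).2 ha).toAlgebra
  obtain ⟨m, x, y, hx, hy, e⟩ := h.chr
  refine Module.Finite.of_fg_top ⟨Finset.univ.image fun t => (⟨x t, hx t⟩ : B), ?_⟩
  rw [Finset.coe_image, Finset.coe_univ, Set.image_univ, eq_top_iff]
  intro b _
  refine (Submodule.mem_span_range_iff_exists_fun O).2
    ⟨fun t => ⟨_, h.tr_mem (B.mul_mem (hy t) b.2)⟩, Subtype.ext ?_⟩
  rw [AddSubmonoidClass.coe_finsetSum]
  exact (Finset.sum_congr rfl fun t _ => mul_comm _ _).trans (chr_expand e b)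

theorem GalR.eft (h : GalR O L B) (hO : Algebra.EssFiniteType ℤ O) :
    Algebra.EssFiniteType ℤ B := by
  let := (L.i.restrict O B fun a ha => (h.inv a).2 ha).toAlgebra
  have : Module.Finite O B := gal2_fin h
  exact Algebra.EssFiniteType.comp ℤ O B

/-- a finite algebra over a local ring is semi-local -/
theorem GalR.finite_max (h : GalR O L B) (hO : IsLoc O O) : Finite (MaximalSpectrum B) := by
  let := (L.i.restrict O B fun a ha => (h.inv a).2 ha).toAlgebra
  have : Module.Finite O B := gal2_fin h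
  have := hO.isLocalRing
  have := (Algebra.QuasiFinite.finite_primesOver (S := B) (IsLocalRing.maximalIdeal O)).to_subtype
  refine Finite.of_injective (β := (IsLocalRing.maximalIdeal O).primesOver B)
    (fun 𝔪 => ⟨𝔪.asIdeal, 𝔪.isMaximal.isPrime, ⟨(IsLocalRing.eq_maximalIdeal ?_).symm⟩⟩)
    fun _ _ e => MaximalSpectrum.ext (congrArg Subtype.val e)
  have := 𝔪.isMaximal
  exact Ideal.isMaximal_comap_of_isIntegral_of_isMaximal _

/-- a derivation that kills `O` is zero -/
theorem GalR.der_eq_zero (h : GalR O L B) {W : Type} [AddCommGroup W] [Module B W]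
    (D : Derivation ℤ B W) (hD : ∀ (a : F) (ha : L.i a ∈ B), D ⟨L.i a, ha⟩ = 0) : D = 0 := by
  obtain ⟨m, x, y, hx, hy, e⟩ := h.chr
  have e' : ∀ g : L.G, ∑ t, y t * g (x t) = if g = 1 then 1 else 0 := fun g => by
    have := congrArg g (e g⁻¹)
    rw [map_sum, apply_ite g, map_one, map_zero] at this
    simp only [inv_eq_one] at this
    rw [← this]
    refine Finset.sum_congr rfl fun t _ => ?_
    rw [map_mul, mul_comm, ← AlgEquiv.mul_apply, mul_inv_cancel, AlgEquiv.one_apply]
  obtain ⟨X, hX⟩ : ∃ X : Fin m → B, ∀ t, (X t : L.E) = x t := ⟨fun t => ⟨_, hx t⟩, fun _ => rfl⟩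
  obtain ⟨Y, hY⟩ : ∃ Y : Fin m → B, ∀ t, (Y t : L.E) = y t := ⟨fun t => ⟨_, hy t⟩, fun _ => rfl⟩
  obtain ⟨T, hT, hT0⟩ : ∃ T : B → B, (∀ b, (T b : L.E) = L.i (Algebra.trace F L.E b)) ∧
      ∀ b, D (T b) = 0 :=
    ⟨fun b => ⟨_, (h.inv _).2 (h.tr_mem b.2)⟩, fun _ => rfl, fun _ => hD _ _⟩
  have h1 : ∀ z : B, ∑ t, X t * T (Y t * z) = z := fun z => Subtype.ext (by
    simpa only [AddSubmonoidClass.coe_finsetSum, MulMemClass.coe_mul, hX, hY, hT]
      using chr_expand e z)
  have h2 : ∀ z : B, ∑ t, Y t * T (X t * z) = z := fun z => Subtype.ext (by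
    simpa only [AddSubmonoidClass.coe_finsetSum, MulMemClass.coe_mul, hX, hY, hT]
      using chr_expand e' z)
  have h3 : ∑ t, X t * Y t = 1 := Subtype.ext (by
    simpa only [AddSubmonoidClass.coe_finsetSum, MulMemClass.coe_mul, hX, hY, if_true,
      AlgEquiv.one_apply, OneMemClass.coe_one] using e 1)
  ext b
  have h4 : ∑ t, (b * X t) • D (Y t) = ∑ s, X s • D (Y s * b) := by
    calc ∑ t, (b * X t) • D (Y t)
        = ∑ t, ∑ s, X s • T (X t * (Y s * b)) • D (Y t) := by
          refine Finset.sum_congr rfl fun t _ => ?_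
          conv_lhs => rw [← h1 (b * X t), Finset.sum_smul]
          refine Finset.sum_congr rfl fun s _ => ?_
          rw [mul_smul, ← mul_assoc, mul_comm _ (X t)]
      _ = ∑ s, X s • D (Y s * b) := by
          rw [Finset.sum_comm]
          refine Finset.sum_congr rfl fun s _ => ?_
          conv_rhs => rw [← h2 (Y s * b), map_sum, Finset.smul_sum]
          refine Finset.sum_congr rfl fun t _ => ?_
          rw [Derivation.leibniz, hT0, smul_zero, zero_add]
  simp only [Derivation.leibniz, smul_add, smul_smul, Finset.sum_add_distrib, mul_comm (X _) b,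
    ← Finset.sum_smul, h3, one_smul, right_eq_add] at h4
  exact h4

variable [Fact p.Prime] [CharP F p] {ι : Type} [Fintype ι] {u : ι → F}

theorem GalR.pbs (h : GalR O L B) (hu : PB p O u) : PB p B fun i => L.i (u i) := by
  have hm : ∀ i, L.i (u i) ∈ B := fun i => (h.inv _).2 (hu.mem i)
  refine pb_crit ?_ (h.frac hu.frac) hm ?_ (hu.ext_top (E := L.E)).ind
  · obtain ⟨m, x, y, hx, hy, e⟩ := h.chr
    obtain ⟨τ, _, f, hf, H⟩ := hu.ff
    refine ⟨Fin m × τ, inferInstance, fun q => x q.1 * L.i (f q.2),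
      fun q => B.mul_mem (hx _) ((h.inv _).2 (hf _)), fun b hb => ?_⟩
    choose c hc hc' using fun t => H _ (h.tr_mem (B.mul_mem (hy t) hb))
    refine ⟨fun q => L.i (c q.1 q.2), fun q => (h.inv _).2 (hc _ _), ?_⟩
    rw [Fintype.sum_prod_type]
    refine (chr_expand e b).symm.trans (Finset.sum_congr rfl fun t _ => ?_)
    rw [hc' t, map_sum, Finset.mul_sum]
    refine Finset.sum_congr rfl fun s _ => ?_
    rw [map_mul, map_pow, mul_left_comm]
  · obtain ⟨N, hN⟩ : ∃ N, N = Submodule.span B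
        (Set.range fun i => (dK (⟨L.i (u i), hm i⟩ : B) : Om B)) := ⟨_, rfl⟩
    have h0 := h.der_eq_zero (N.mkQ.compDer dK) fun a ha => by
      obtain ⟨c, hc, rfl⟩ := hu.span a ((h.inv a).1 ha)
      have e : (⟨_, ha⟩ : B) = ∑ I, ⟨L.i (c I), (h.inv _).2 (hc I)⟩ ^ p *
          ∏ i, (⟨L.i (u i), hm i⟩ : B) ^ (I i : ℕ) := Subtype.ext (by simp [mon])
      refine (Submodule.Quotient.mk_eq_zero N).2 ?_
      change dK _ ∈ N
      rw [e, map_sum]
      refine N.sum_mem fun I _ => ?_
      rw [d_pow_p_mul]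
      refine N.smul_mem _ (Finset.prod_induction _ (fun b : B => dK b ∈ N) (fun a b ha hb => ?_)
        (by simp) fun i _ => ?_)
      · rw [Derivation.leibniz]
        exact N.add_mem (N.smul_mem _ hb) (N.smul_mem _ ha)
      · rw [Derivation.leibniz_pow]
        exact N.smul_of_tower_mem _ (N.smul_mem _ (hN ▸ Submodule.subset_span ⟨i, rfl⟩))
    rw [← hN, eq_top_iff, ← KaehlerDifferential.span_range_derivation, Submodule.span_le]
    rintro _ ⟨b, rfl⟩
    exact (Submodule.Quotient.mk_eq_zero N).1 (DFunLike.congr_fun h0 b)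

theorem GalR.ufd (h : GalR O L B) (hO : Reg p m O) : UniqueFactorizationMonoid B := by
  obtain ⟨u, hu⟩ := hO.pb
  have := h.finite_max hO.2
  exact (h.pbs hu).ufd (h.eft hO.1.eft)

theorem Lv.pb_top (L : Lv F) (hu : PB p O u) : PB p (⊤ : Subring L.E) fun i => L.i (u i) :=
  hu.ext_top

omit [Fact p.Prime] [CharP F p] in
/-- modify by the greatest common divisor of the `e g` -/
theorem GalR.unit_dd (h : GalR O L B) (hO : Fc O) [UniqueFactorizationMonoid B] {e : L.G → L.Eˣ}
    (he : ∀ q, Un B ((dd e q : L.Eˣ) : L.E)) : ∃ e' : L.G → L.Eˣ, (∀ g, Un B (e' g : L.E)) ∧ dd e' = dd e := by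
  obtain ⟨f, h0, hf⟩ := exists_gcd (h.frac hO) (e := fun g => (e g : L.E)) fun g => (e g).ne_zero
  obtain ⟨f, rfl⟩ : ∃ f' : L.Eˣ, (f' : L.E) = f := ⟨Units.mk0 f h0, rfl⟩
  have h1 : ∀ k, (e k : L.E) / f ∈ B := (hf f h0).2 (by rw [div_self h0]; exact B.one_mem)
  have h2 : ∀ g k : L.G, Un B (g (e k) / e (g * k) * e g) := fun g k => by
    have := he (g, k)
    rwa [dd, Units.val_mul, Units.val_div_eq_div_val] at this
  have hg : ∀ (g : L.G) (v : L.Eˣ), g v ≠ 0 := fun g v => (map_ne_zero g).2 v.ne_zero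
  refine ⟨fun g => e g * g • f / f, fun g => ?_, funext fun q => ?_⟩
  · have e0 := (e g).ne_zero
    have e1 := hg g f
    change Un B (((e g * g • f / f : L.Eˣ)) : L.E)
    rw [Units.val_div_eq_div_val, Units.val_mul]
    change Un B (e g * g f / f)
    refine ⟨?_, by positivity, ?_⟩
    · have h3 := h.act g _ ((hf (g⁻¹ (f / e g)) ((map_ne_zero _).2 (div_ne_zero h0 e0))).1 fun k => by
        have h4 := h.act g⁻¹ _ (B.mul_mem (h2 g k).1 (h1 (g * k)))
        have e2 : g (e k) / e (g * k) * e g * (e (g * k) / f) = g (e k) / (f / e g) := by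
          field_simp
        rwa [e2, map_div₀, ← AlgEquiv.mul_apply, inv_mul_cancel, AlgEquiv.one_apply] at h4)
      rw [map_div₀, ← AlgEquiv.mul_apply, mul_inv_cancel, AlgEquiv.one_apply] at h3
      rwa [div_div_eq_mul_div, mul_comm] at h3
    · rw [inv_div]
      refine (hf _ (mul_ne_zero e0 e1)).1 fun k => ?_
      obtain ⟨k, rfl⟩ : ∃ k', k = g * k' := ⟨g⁻¹ * k, (mul_inv_cancel_left g k).symm⟩
      have h3 := B.mul_mem (h2 g k).2.2 (h.act g _ (h1 k))
      have e2 : (g (e k) / e (g * k) * e g)⁻¹ * g (e k / f) = e (g * k) / (e g * g f) := by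
        have := hg g (e k)
        rw [map_div₀]
        field_simp
      rwa [e2] at h3
  · simp only [dd, smul_div', smul_mul', mul_smul]
    refine Units.ext ?_
    push_cast
    field_simp

end Pool.Agent.ZFd
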