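import Pool.Agent.Lib.MP_751085_ag.ZF.B.Cor
import Pool.Agent.Lib.MP_751085_ag.ZF.B.U0
import Pool.Agent.Lib.MP_751085_ag.ZF.D.Rd

/-! The covering of a symbol. -/

namespace Pool.Agent.ZFd

open scoped Classical Pool.Agent.ZCy.F
open groupCohomology
open Pool.Agent.ZCy (dd pull cl)
open Pool.Agent.ZCy.F (BR SC cls rs UC Loc)

variable {p : ℕ} [Fact p.Prime]

theorem sym_tr {A : Type} [CommRing A] (κ : ZMod p →+* A) (W : A) {i : ℕ} (hi : i ≤ p - 1) :
    ∑ n : ZMod p, (κ n + W) ^ i = κ (∑ n, n ^ i) := by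
  simp only [add_pow]
  rw [Finset.sum_comm, Finset.sum_range_succ, Finset.sum_eq_zero fun k hk => ?_]
  · simp
  · simp only [← map_pow]
    rw [← Finset.sum_mul, ← Finset.sum_mul, ← map_sum, FiniteField.sum_pow_lt_card_sub_one _ _
      (by rw [ZMod.card]; exact (Finset.mem_range.1 hk).trans_le hi), map_zero, zero_mul, zero_mul]

theorem sym_top : ∑ n : ZMod p, n ^ (p - 1) = -1 := by
  have h : ∀ n : ZMod p, n ^ (p - 1) = 1 - if n = 0 then 1 else 0 := fun n => by
    rw [ZMod.pow_card_sub_one]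
    by_cases h : n = 0 <;> simp [h]
  simp [h]

open Polynomial in
theorem sym_cover {O : Type} [CommRing O] (hp : (p : O) = 0) (y : O) :
    ∃ (A : Type) (_ : CommRing A) (i : O →+* A) (W : A) (κ : ZMod p →+* O)
      (σ : ZMod p → A →+* A), Function.Injective i ∧ W ^ p - W = i y ∧
      (∀ n a, σ n (i a) = i a) ∧ (∀ n, σ n W = i (κ n) + W) ∧
      ∀ a : A, ∃ q : O[X], a = q.eval₂ i W := by
  have h1 : (X + C y).degree < (p : WithBot ℕ) := lt_of_le_of_lt ((degree_add_le _ _).trans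
    (max_le degree_X_le (degree_C_le.trans zero_le_one)))
    (by exact_mod_cast (Fact.out : p.Prime).one_lt)
  let f := X ^ p - (X + C y)
  let κ : ZMod p →+* O := ZMod.castHom (ringChar.dvd hp) O
  have h2 : ∀ z : AdjoinRoot f, f.eval₂ (AdjoinRoot.of f) z = z ^ p - z - AdjoinRoot.of f y :=
    fun z => by rw [eval₂_sub, eval₂_add, eval₂_X_pow, eval₂_X, eval₂_C, sub_sub]
  have h3 := (h2 _).symm.trans (AdjoinRoot.eval₂_root f)
  refine ⟨AdjoinRoot f, inferInstance, AdjoinRoot.of f, AdjoinRoot.root f, κ, fun n =>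
    AdjoinRoot.lift (AdjoinRoot.of f) (AdjoinRoot.of f (κ n) + AdjoinRoot.root f) ?_,
    (injective_iff_map_eq_zero _).2 fun a ha => by_contra fun h => ?_, sub_eq_zero.1 h3,
    fun n a => AdjoinRoot.lift_of _, fun n => AdjoinRoot.lift_root _, fun a => ?_⟩
  · obtain ⟨r, hr⟩ := exists_add_pow_prime_eq (Fact.out : p.Prime) (AdjoinRoot.of f (κ n))
      (AdjoinRoot.root f)
    rw [← map_natCast (AdjoinRoot.of f), hp, map_zero, ← map_pow, ← map_pow, ZMod.pow_card] at hr
    rw [h2]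
    linear_combination hr + h3
  · have := nontrivial_of_ne a 0 h
    refine AdjoinRoot.mk_ne_zero_of_degree_lt (monic_X_pow_sub h1) (C_ne_zero.2 h) ?_ ha
    rw [degree_sub_eq_left_of_degree_lt (by rwa [degree_X_pow]), degree_X_pow]
    exact degree_C_le.trans_lt (by exact_mod_cast (Fact.out : p.Prime).pos)
  · obtain ⟨q, rfl⟩ := AdjoinRoot.mk_surjective a
    exact ⟨q, (AdjoinRoot.aeval_eq q).symm⟩

/-- the covering `W ^ p - W = y` -/
theorem exists_as_cover {O : Type} [CommRing O] (hp : (p : O) = 0) (y : O) :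
    ∃ (U : UC O) (W : U.A) (χ : U.G →* Multiplicative (ZMod p)), W ^ p - W = U.i y ∧
      ∀ g, g • W - W = ((χ g).toAdd.val : U.A) := by
  obtain ⟨A, _, i, W, κ, σ, hi, hW, h1, h2, h3⟩ := sym_cover hp y
  have ext : ∀ f g : A →+* A, (∀ a, f (i a) = g (i a)) → f W = g W → ∀ a, f a = g a :=
    fun f g e e' a => by
    obtain ⟨q, rfl⟩ := h3 a
    rw [Polynomial.hom_eval₂, Polynomial.hom_eval₂, e', show f.comp i = g.comp i from RingHom.ext e]
  let act : MulSemiringAction (Multiplicative (ZMod p)) A :=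
    { smul := fun g a => σ g.toAdd a
      one_smul := ext (σ 0) (RingHom.id A) (h1 0) (by
        rw [h2, map_zero, map_zero, zero_add, RingHom.id_apply])
      mul_smul := fun g g' => ext (σ (g.toAdd + g'.toAdd)) ((σ g.toAdd).comp (σ g'.toAdd))
        (fun a => by rw [RingHom.comp_apply, h1, h1, h1]) (by
          rw [RingHom.comp_apply, h2, h2, map_add (σ _), h1, h2, map_add, map_add]
          ring)
      smul_zero := fun g => map_zero (σ g.toAdd)
      smul_add := fun g => map_add (σ g.toAdd)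
      smul_one := fun g => map_one (σ g.toAdd)
      smul_mul := fun g => map_mul (σ g.toAdd) }
  have h4 : ∀ k, k ≤ p - 1 → ∑ n, σ n (W ^ k) = i (κ (∑ n, n ^ k)) := fun k hk => by
    simp only [map_pow (σ _), h2]
    exact sym_tr (i.comp κ) W hk
  have h5 : ∀ k, ∑ n, σ n (W ^ k) ∈ i.range := fun k => by
    induction k using Nat.strong_induction_on with
    | h k ih =>
      obtain hk | hk := lt_or_ge k p
      · exact ⟨_, (h4 k (Nat.le_sub_one_of_lt hk)).symm⟩
      · obtain ⟨m, rfl⟩ := Nat.exists_eq_add_of_le hk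
        have h6 := (Fact.out : p.Prime).one_lt
        rw [show W ^ (p + m) = W ^ (m + 1) + i y * W ^ m by rw [← hW]; ring]
        simp only [map_add, map_mul, h1, Finset.sum_add_distrib, ← Finset.mul_sum]
        exact add_mem (ih _ (by omega)) (mul_mem ⟨y, rfl⟩ (ih _ (by omega)))
  have h6 : ∀ a, ∑ n, σ n a ∈ i.range := fun a => by
    obtain ⟨q, rfl⟩ := h3 a
    induction q using Polynomial.induction_on' with
    | add q q' e e' =>
      simp only [Polynomial.eval₂_add, map_add, Finset.sum_add_distrib]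
      exact add_mem e e'
    | monomial k c =>
      simp only [Polynomial.eval₂_monomial, map_mul, h1, ← Finset.mul_sum]
      exact mul_mem ⟨c, rfl⟩ (h5 k)
  refine ⟨{ G := Multiplicative (ZMod p), A := A, act := act, i := i, inj := hi
            inv := fun a => ⟨?_, fun e => ?_⟩
            crd := ⟨p - 1 + 1 + 1,
              Fin.cons 1 fun k => -((-W) ^ (p - 1 - k) * ((p - 1).choose k : A)),
              Fin.cons 1 fun k => W ^ (k : ℕ), fun g => ?_⟩
            c := 1, coc := ZCy.coc_one }, W, MonoidHom.id _, hW, fun g => ?_⟩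
  · rintro ⟨a, rfl⟩ g
    exact h1 _ a
  · have h7 := h6 (a * W ^ (p - 1))
    simp only [map_mul, show ∀ n, σ n a = a from fun n => e (Multiplicative.ofAdd n),
      ← Finset.mul_sum] at h7
    rw [h4 _ le_rfl, sym_top, map_neg, map_neg, map_one, map_one, mul_neg_one] at h7
    exact neg_mem_iff.1 h7
  · have h7 : ∑ k : Fin (p - 1 + 1), (-W) ^ (p - 1 - k) * ((p - 1).choose k : A) *
        σ g.toAdd (W ^ (k : ℕ)) = i (κ (g.toAdd ^ (p - 1))) := by
      rw [map_pow, map_pow, ← add_neg_cancel_right (i _) W, ← h2, add_pow, Finset.sum_range]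
      exact Finset.sum_congr rfl fun k _ => by rw [map_pow]; ring
    rw [Fin.sum_univ_succ]
    simp only [Fin.cons_zero, Fin.cons_succ, neg_mul, Finset.sum_neg_distrib, smul_one, one_mul]
    refine (congrArg (1 + -·) h7).trans ?_
    rw [ZMod.pow_card_sub_one]
    by_cases h : g = 1 <;> simp [h]
  · refine (congrArg (· - W) (h2 g.toAdd)).trans ?_
    rw [add_sub_cancel_right, ← map_natCast (i.comp κ), ZMod.natCast_zmod_val]
    rfl

/-- the cocycle `b ^ k`, `p k (g, h) = n g + n h - n (g h)`, on the covering -/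
theorem uc_symb {O : Type} [CommRing O] (hp : (p : O) = 0) (y : O) (b : Oˣ) :
    ∃ U : UC O, ∀ (M : Type) [Field M] [CharP M p] (φ : O →+* M), HB p M →
      U.val φ = dlt p M (mq p (φ y • dlog (φ b))) := by
  obtain ⟨U, W, χ, hW, h1⟩ := exists_as_cover hp y
  let n : U.G → ℤ := fun g => (χ g).toAdd.val
  have h2 : ∀ q : U.G × U.G, (p : ℤ) ∣ n q.1 + n q.2 - n (q.1 * q.2) := fun q =>
    (ZMod.intCast_zmod_eq_zero_iff_dvd _ p).1 (by simp [n])
  choose k hk using h2
  let β := Units.map (U.i : O →* U.A) b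
  have h3 : ∀ g : U.G, g • β = β := fun g => Units.ext ((U.inv _).1 ⟨b, rfl⟩ g)
  have hc : IsMulCocycle₂ fun q => β ^ k q := fun g g' j => by
    rw [smul_zpow', h3, ← zpow_add, ← zpow_add]
    refine congrArg _ (mul_left_cancel₀ (Int.natCast_ne_zero.2 (Fact.out : p.Prime).ne_zero) ?_)
    rw [mul_add, mul_add, ← hk, ← hk, ← hk, ← hk]
    simp only [mul_assoc]
    ring
  let V : UC O := { U with c := fun q => β ^ k q, coc := hc }
  refine ⟨V, fun M _ _ φ hM => ?_⟩
  obtain ⟨ρ, r, h⟩ := uc_exists_at U φ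
  let ι := ZMod.castHom (dvd_refl p) (SC M)
  have h4 : ∀ g, ρ (g • W) - ρ W = n g := fun g => by
    rw [← map_sub, h1, map_natCast, Int.cast_natCast]
  have h5 : ∀ g, ι (χ g).toAdd = ρ (g • W) - ρ W := fun g => by
    rw [h4, Int.cast_natCast, ← map_natCast ι, ZMod.natCast_zmod_val]
  have h6 := dlt_cl hM (w := ρ W) (y := φ y) (Units.map (φ : O →* M) b)
    (n := fun g => n (r g)) (k := fun q => k (r q.1, r q.2))
    (by rw [← map_pow, ← map_sub, hW, h.base]) (fun g => by rw [← h4, h.comm]; rfl)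
    (fun g g' => by
      have h7 : (χ (r (g * g'))).toAdd = (χ (r g * r g')).toAdd := ι.injective (by
        rw [h5, h5, mul_smul, h.comm, h.comm, h.comm, mul_smul])
      simp only [← hk, n, h7])
    ((IsLocallyConstant.desc (fun g => (χ (r g)).toAdd) ι (by
      rw [show ι ∘ (fun g => (χ (r g)).toAdd) = fun g => g (ρ W) - ρ W from
        funext fun g => (h5 _).trans (by rw [h.comm]; rfl)]
      exact (ZCy.lc_apply (ρ W)).comp (· - ρ W)) ι.injective).comp fun a => (a.val : ℤ))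
  refine (uc_val_eq V (ρ := ρ) (r := r) ⟨h.base, h.comm⟩).2.trans
    ((congrArg _ (funext fun q => ?_)).trans h6.2.symm)
  exact (map_zpow _ _ _).trans (congrArg (· ^ _) (Units.ext (h.base b)))

theorem uc_symbs {O ι : Type} [CommRing O] [Fintype ι] (hp : (p : O) = 0) (y : ι → O)
    (b : ι → Oˣ) : ∃ U : UC O, ∀ (M : Type) [Field M] [CharP M p] (φ : O →+* M), HB p M →
      U.val φ = dlt p M (mq p (∑ i, φ (y i) • dlog (φ (b i)))) := by
  induction (Finset.univ : Finset ι) using Finset.induction_on with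
  | empty =>
    obtain ⟨U, h⟩ := uc_zero O
    exact ⟨U, fun M _ _ φ _ => by rw [h, Finset.sum_empty, map_zero, map_zero]⟩
  | insert i s hi ih =>
    obtain ⟨U, h⟩ := ih
    obtain ⟨V, h'⟩ := uc_symb hp (y i) (b i)
    obtain ⟨W, e⟩ := uc_add V U
    exact ⟨W, fun M _ _ φ hM => by
      rw [e, h M φ hM, h' M φ hM, Finset.sum_insert hi, map_add, map_add]⟩

/-- in a local ring `b` or `1 - b` is a unit -/
theorem uc_form {O : Type} [CommRing O] [IsLocalRing O] (hp : (p : O) = 0) (ω : Om O) :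
    ∃ U : UC O, ∀ (M : Type) [Field M] [CharP M p] (φ : O →+* M), HB p M →
      U.val φ = dlt p M (mq p (pb φ ω)) := by
  have key : ∀ (a b : O), IsUnit b → ∃ U : UC O, ∀ (M : Type) [Field M] [CharP M p] (φ : O →+* M),
      HB p M → U.val φ = dlt p M (mq p (pb φ (a • dK b))) := by
    rintro a _ ⟨b, rfl⟩
    obtain ⟨U, h⟩ := uc_symb hp (a * b) b
    exact ⟨U, fun M _ _ φ hM => by
      rw [h M φ hM, pb_smul_d, map_mul, mul_smul, smul_dlog (b.isUnit.map φ).ne_zero]⟩
  induction ω using om_ind with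
  | h0 =>
    obtain ⟨U, h⟩ := uc_zero O
    exact ⟨U, fun M _ _ φ _ => by rw [h, map_zero, map_zero, map_zero]⟩
  | h1 a b =>
    obtain h | h := IsLocalRing.isUnit_or_isUnit_one_sub_self b
    · exact key a b h
    · have h1 := key (-a) _ h
      rwa [map_sub, Derivation.map_one_eq_zero, zero_sub, neg_smul_neg] at h1
  | h2 x y hx hy =>
    obtain ⟨U, h⟩ := hx
    obtain ⟨V, h'⟩ := hy
    obtain ⟨W, e⟩ := uc_add U V
    exact ⟨W, fun M _ _ φ hM => by rw [e, h M φ hM, h' M φ hM, map_add, map_add, map_add]⟩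

variable {F F' : Type} [Field F] [Field F'] [CharP F p] [CharP F' p] {O : Subring F}

omit [Fact p.Prime] [CharP F p] [CharP F' p] in
theorem Rd.o_pb (ρ : Rd p O F') (ω : Om O) : ρ.o (pb O.subtype ω) = pb ρ.hom ω := by
  induction ω using om_ind with
  | h0 => rw [map_zero, map_zero, map_zero]
  | h1 a b =>
    rw [pb_smul_d, pb_smul_d]
    exact ρ.om a a.2 b b.2
  | h2 x y hx hy => rw [map_add, map_add, map_add, hx, hy]

theorem dlt_mem_loc (hF : HB p F) (hO : IsLoc O O) {x : Qm p F} (hx : x ∈ QS p O) :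
    dlt p F x ∈ Loc O := by
  obtain ⟨ω, hω, rfl⟩ := mem_QS.1 hx
  obtain ⟨ω, rfl⟩ := mem_OmS_range.1 hω
  have := hO.isLocalRing
  obtain ⟨U, h⟩ := uc_form (CharP.cast_eq_zero O p) ω
  exact uc_mem_loc.2 ⟨U, h F _ hF⟩

theorem val_dlt (hF : HB p F) (hF' : HB p F') (hO : IsLoc O O) (ρ : Rd p O F') {x : Qm p F}
    (hx : x ∈ QS p O) :
    ∃ U : UC O, U.val O.subtype = dlt p F x ∧ U.val ρ.hom = dlt p F' (ρ.q x) := by
  obtain ⟨ω, hω, rfl⟩ := mem_QS.1 hx
  rw [ρ.qm ω hω]
  obtain ⟨ω, rfl⟩ := mem_OmS_range.1 hω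
  have := hO.isLocalRing
  obtain ⟨U, h⟩ := uc_form (CharP.cast_eq_zero O p) ω
  exact ⟨U, h F _ hF, by rw [ρ.o_pb, h F' _ hF']⟩

end Pool.Agent.ZFd
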