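import Pool.Agent.Lib.MP_751085_ag.ZF.B.L12
import Pool.Agent.Lib.MP_751085_ag.ZF.B.Sym
import Pool.Agent.Lib.MP_751085_ag.ZF.D.Pr

/-! The Brauer group as a system of local groups. -/

namespace Pool.Agent.ZFd

open scoped Classical Pool.Agent.ZCy.F
open groupCohomology
open Pool.Agent.ZCy (dd pull cl)
open Pool.Agent.ZCy.F (BR SC cls rs UC Loc)

variable {F F' : Type} [Field F] [Field F'] {p m : ℕ} [Fact p.Prime] [CharP F p] [CharP F' p]

theorem Sm.hb {A : Subring F} (h : Sm p m A) : HB p F :=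
  (h.pb ⊤ (isLoc_top h.frac)).elim fun u hu => ⟨m, u, hu⟩

/-- the Brauer group with its local subgroups -/
noncomputable def bd (m : ℕ) (hF : HB p F) : BD p m F (BR F) where
  dl := dlt p F
  loc := Loc
  ker _ := dlt_eq_zero hF
  l0 _ hO _ hx := dlt_mem_loc hF hO.2 hx
  l1 _ hO _ ha hp := loc_l1 hO ha hp
  l2 _ hO _ ha := loc_l2 hO ha
  spr A O hA hO a ha := by
    obtain ⟨h, hh, hu, H⟩ := loc_spread hA hO ha
    exact ⟨h, hh, hu, fun O' h1 h2 => loc_mono ((isLoc_away hh hu.2.1).2 ⟨h1, h2⟩).le H⟩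
  top := loc_top

/-- the value along `φ` -/
noncomputable def spv {R : Subring F} (φ : R →+* F') (a : BR F) : BR F' :=
  if h : ∃ U : UC R, U.val R.subtype = a then h.choose.val φ else 0

theorem spv_eq {R : Subring F} (hR : Reg p m R) (φ : R →+* F') (U : UC R) :
    spv φ (U.val R.subtype) = U.val φ := by
  have h : ∃ V : UC R, V.val R.subtype = U.val R.subtype := ⟨U, rfl⟩
  rw [spv, dif_pos h]
  exact uc_unique hR h.choose_spec φ

theorem spv_le {R O : Subring F} (hR : Reg p m R) (h : O ≤ R) (φ : R →+* F') (U : UC O) :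
    spv φ (U.val O.subtype) = U.val (φ.comp (Subring.inclusion h)) := by
  obtain ⟨U', h'⟩ := uc_bc U (Subring.inclusion h)
  rw [← h', ← spv_eq hR φ U', h']
  rfl

/-- the map onto the image -/
def Rd.toIm {R O : Subring F} (ρ : Rd p R F') (h : O ≤ R) : O →+* ρ.im O :=
  (ρ.hom.comp (Subring.inclusion h)).codRestrict _ fun a => ⟨⟨a, h a.2⟩, a.2, rfl⟩

/-- specialisation -/
noncomputable def spd {R : Subring F} (ρ : Rd p R F') (hF : HB p F) (hF' : HB p F')
    (hR : Reg p (m + 1) R) : SpD (bd (m + 1) hF) (bd m hF') ρ where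
  sp := spv ρ.hom
  add a ha b hb := by
    obtain ⟨U, rfl⟩ := uc_mem_loc.1 ha
    obtain ⟨V, rfl⟩ := uc_mem_loc.1 hb
    obtain ⟨W, h⟩ := uc_add U V
    rw [← h, spv_eq hR, spv_eq hR, spv_eq hR, h]
  dl x hx := by
    obtain ⟨U, h1, h2⟩ := val_dlt hF hF' hR.2 ρ hx
    change spv ρ.hom (dlt p F x) = dlt p F' (ρ.q x)
    rw [← h1, spv_eq hR, h2]
  loc O _ hO _ a ha := by
    obtain ⟨U, rfl⟩ := uc_mem_loc.1 ha
    obtain ⟨U', h'⟩ := uc_bc U (ρ.toIm hO.le)
    rw [spv_le hR hO.le]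
    exact uc_mem_loc.2 ⟨U', h' _ _⟩

end Pool.Agent.ZFd
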