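import Pool.Agent.Lib.MP_751085_ag.ZF.B.Rep
import Pool.Agent.Lib.MP_751085_ag.ZF.B.Cn

/-! Local classes of order `p` come from regular forms; local classes are divisible by `p`. -/

namespace Pool.Agent.ZFd

open scoped Classical Pool.Agent.ZCy.F
open groupCohomology
open Pool.Agent.ZCy (dd pull cl)
open Pool.Agent.ZCy.F (BR SC cls rs UC Loc)

variable {F : Type} [Field F] {p m : ℕ} [Fact p.Prime] [CharP F p] {ι : Type} [Fintype ι]
  {u : ι → F} {O : Subring F} {L : Lv F} {B : Subring L.E} {c : L.G × L.G → L.Eˣ} {a : BR F}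

omit [Fact p.Prime] [CharP F p] in
theorem l12_mul (x y : L.Eˣ) : dlog ((x * y : L.Eˣ) : L.E) = dlog (x : L.E) + dlog (y : L.E) :=
  dlog_mul x.ne_zero y.ne_zero

theorem l12_wp (g : L.G) (θ : Om L.E) : L.pq p g (wp p θ) = wp p (L.po g θ) := pbQ_wp _ _

omit [Fact p.Prime] [CharP F p] in
theorem l12_h1 (h : GalR O L B) {ψ : L.G → Om L.E} (hψ : ∀ g, ψ g ∈ OmS B)
    (H : ∀ g g', ψ (g * g') = L.po g (ψ g') + ψ g) : ∃ θ ∈ OmS B, ∀ g, ψ g = L.po g θ - θ :=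
  h.h1 L.po (OmS B) L.po_mul (fun _ _ _ => pb_smul _ _ _) (fun _ hb _ hx => OmS_smul hb hx) hψ H

theorem GalR.l1 (h : GalR O L B) [UniqueFactorizationMonoid B] (hu : PB p O u) (hc : Cc L B c)
    (hp : p • cls F c = 0) : ∃ x ∈ QS p O, Rep p (cls F c) x := by
  rw [← ZCy.F.cls_pow hc.coc, ZCy.F.cls_eq_zero (ZCy.coc_pow hc.coc p)] at hp
  obtain ⟨e₀, h₀⟩ : ∃ e₀ : L.G → L.Eˣ, c ^ p = dd e₀ := hp
  obtain ⟨e, he, h₁⟩ := h.unit_dd hu.frac (e := e₀) fun q => by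
    rw [← h₀, Pi.pow_apply, Units.val_pow_eq_pow_val]
    exact (hc.un q).pow p
  rw [← h₁] at h₀
  obtain ⟨θ, hθ, H⟩ := l12_h1 h (ψ := fun g => dlog (e g : L.E)) (fun g => dlog_mem (he g))
    fun g g' => by
      have := L.dlog_dd e g g'
      rw [← h₀, Pi.pow_apply, Units.val_pow_eq_pow_val, dlog_pow_p, sub_add_eq_add_sub] at this
      exact (sub_eq_zero.1 this.symm).symm
  obtain ⟨x, hx, e1⟩ := h.inv_q hu (wp_mem (p := p) hθ) fun g => by
    rw [l12_wp, ← sub_eq_zero, ← map_sub, ← H, wp_dlog]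
  exact ⟨x, hx, L, c, e, θ, ⟨hc.coc, h₀, H, e1.symm⟩, rfl⟩

/-- a cocycle whose logarithmic differential bounds a cochain killed by `wp` -/
theorem l12_fin {v : ι → L.E} [UniqueFactorizationMonoid B] (h : GalR O L B) (hv : PB p B v)
    (hc : Cc L B c) {χ : L.G → Om L.E} (h1 : ∀ g, χ g ∈ OmS B) (h2 : ∀ g, wp p (χ g) = 0)
    (h3 : ∀ g g', dlog (c (g, g') : L.E) = L.po g (χ g') - χ (g * g') + χ g) :
    ∃ c', Cc L B c' ∧ p • cls F c' = cls F c := by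
  have A : ∀ g, ∃ e : L.Eˣ, Un B (e : L.E) ∧ dlog (e : L.E) = χ g := fun g => by
    obtain ⟨f, hf, e⟩ := hv.cartier (h2 g)
    obtain ⟨x, w, hx, hw, rfl⟩ := hv.unit_mul_pow hf (e ▸ h1 g)
    refine ⟨Units.mk0 x hx.2.1, hx, ?_⟩
    rw [e, dlog_mul hx.2.1 (pow_ne_zero _ hw), dlog_pow_p, add_zero, Units.val_mk0]
  choose e he he' using A
  have C : ∀ q, ∃ s : L.Eˣ, Un B (s : L.E) ∧ s ^ p = (c / dd e) q := by
    rintro ⟨g, g'⟩
    have hd : Un B ((dd e (g, g') : L.Eˣ) : L.E) := by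
      rw [ZCy.dd_apply, Units.val_mul, Units.val_div_eq_div_val]
      exact ((h.un_act g (he g')).div (he _)).mul (he g)
    have hq := (hc.un (g, g')).div hd
    obtain ⟨s, hs⟩ := hv.dlog_eq_zero (f := (c (g, g') : L.E) / (dd e (g, g') : L.Eˣ)) (by
      rw [dlog_div (Units.ne_zero _) (Units.ne_zero _), L.dlog_dd, he', he', he', h3, sub_self])
    rw [hs] at hq
    have := hq.of_pow (Fact.out : p.Prime).ne_zero (hv.mem_of_pow hq.1)
    refine ⟨Units.mk0 s this.2.1, this, Units.ext ?_⟩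
    rw [Units.val_pow_eq_pow_val, Units.val_mk0, ← hs, Pi.div_apply, Units.val_div_eq_div_val]
  choose s hs hs' using C
  have D := ZCy.coc_div hc.coc (ZCy.dd_coc e)
  have E : IsMulCocycle₂ s := fun g g' k => by
    refine Units.ext (frobenius_inj L.E p ?_)
    have := congrArg Units.val (D g g' k)
    rw [← hs', ← hs', ← hs', ← hs', smul_pow', ← mul_pow, ← mul_pow] at this
    exact this
  refine ⟨s, ⟨E, hs⟩, ?_⟩
  rw [← ZCy.F.cls_pow E, show s ^ p = c / dd e from funext hs', div_eq_mul_inv, ← ZCy.dd_inv]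
  exact ZCy.F.cls_mul_dd hc.coc _

theorem GalR.l2 (h : GalR O L B) (hO : Nm O) (hu : PB p O u) (hun : ∀ i, Un O (u i))
    (hU : ∀ L' : Lv F, GalR O L' (ic O L') → UniqueFactorizationMonoid (ic O L')) (hc : Cc L B c) :
    ∃ (L' : Lv F) (c' : L'.G × L'.G → L'.Eˣ), GalR O L' (ic O L') ∧ Cc L' (ic O L') c' ∧
      p • cls F c' = cls F c := by
  obtain ⟨χ, hχ, H⟩ := h.h2 L.po (OmS B) L.po_mul (fun _ _ _ => pb_smul _ _ _)
    (fun _ hb _ hx => OmS_smul hb hx) (ψ := fun q => dlog (c q : L.E))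
    (fun q => dlog_mem (hc.un q)) fun g g' k => by
      rw [← L.dlog_smul, ← l12_mul, ← l12_mul, hc.coc g g' k]
  obtain ⟨y, hy, H'⟩ := h.h1 (L.pq p) (QS p B) L.pq_mul (fun _ _ _ => pbQ_smul _ _ _)
    (fun _ hb _ hx => QS_smul hb hx) (ψ := fun g => wp p (χ g)) (fun g => wp_mem (hχ g))
    fun g g' => by
      have := congrArg (wp p) (H g g')
      rw [wp_dlog, sub_add_eq_add_sub, map_sub, map_add, ← l12_wp] at this
      exact (sub_eq_zero.1 this.symm).symm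
  obtain ⟨ω, hω, rfl⟩ := mem_QS.1 hy
  have hv := h.pbs hu
  obtain ⟨L', j, w, h', hj, hw⟩ := h.as (p := p) hO
    (y := fun i => L.i (u i) * co (fun i => L.i (u i)) i ω)
    fun i => B.mul_mem (hv.mem i) (hv.mem_OmS.1 hω i)
  obtain ⟨r, hr⟩ := L.exists_r L' (φ := RingHom.id F) (j := (j : L.E →+* L'.E)) j.commutes
  have hr' : ∀ g : L'.G, (j : L.E →+* L'.E).comp (r g : L.E →+* L.E) =
      (g : L'.E →+* L'.E).comp (j : L.E →+* L'.E) := fun g => RingHom.ext (hr g)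
  have hθ : ∑ i, w i • dlog (L'.i (u i)) ∈ OmS (ic O L') := sum_mem fun i _ =>
    OmS_smul (hw i).1 (dlog_mem ⟨(h'.inv _).2 (hun i).1, (map_ne_zero _).2 (hun i).2.1,
      by rw [← map_inv₀]; exact (h'.inv _).2 (hun i).2.2⟩)
  have e1 : wp p (∑ i, w i • dlog (L'.i (u i))) = pbQ p (j : L.E →+* L'.E) (mq p ω) := by
    refine .trans ?_ (congrArg (fun z => mq p (pb (j : L.E →+* L'.E) z)) (hv.sum_dlog ω))
    simp only [map_sum]
    refine Finset.sum_congr rfl fun i _ => ?_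
    rw [wp_smul_dlog, (hw i).2, pb_smul, pb_dlog, ← show (j : L.E →+* L'.E) (L.i (u i)) = L'.i (u i)
      from j.commutes _]
    rfl
  generalize ∑ i, w i • dlog (L'.i (u i)) = θ at hθ e1
  have := hU L' h'
  obtain ⟨c', h1, h2⟩ := l12_fin h' (h'.pbs hu) (hc.up hr hj)
    (χ := fun g => pb (j : L.E →+* L'.E) (χ (r g)) - (L'.po g θ - θ))
    (fun g => sub_mem (pb_mem_OmS _ hj (hχ _)) (sub_mem (h'.po_mem g hθ) hθ))
    (fun g => by
      rw [(wp p).map_sub, (wp p).map_sub, ← l12_wp, e1, ← pbQ_wp, H', (pbQ p _).map_sub, pbQ_comp,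
        pbQ_comp, hr', sub_self])
    fun g g' => by
      have := congrArg (pb (j : L.E →+* L'.E)) (H (r g) (r g'))
      rw [pb_dlog, (pb _).map_add, (pb _).map_sub, pb_comp, hr', ← pb_comp,
        ← ZCy.lk_mul (j := (j : L.E →+* L'.E)) hr] at this
      refine this.trans ?_
      rw [(L'.po g).map_sub, (L'.po g).map_sub, L'.po_mul]
      abel
  exact ⟨L', c', h', h1, h2.trans (cls_up hc.coc hr)⟩

theorem loc_l1 (hO : Reg p m O) (ha : a ∈ Loc O) (hp : p • a = 0) :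
    ∃ x ∈ QS p O, dlt p F x = a := by
  obtain ⟨L, c, h, hc, rfl⟩ := (mem_loc_iff hO.1.nm).1 ha
  obtain ⟨u, hu⟩ := hO.pb
  have := h.ufd hO
  obtain ⟨x, hx, H⟩ := h.l1 hu hc hp
  exact ⟨x, hx, H.eq_dlt ⟨m, u, hu.top⟩⟩

theorem loc_l2 (hO : Reg p m O) (ha : a ∈ Loc O) : ∃ a' ∈ Loc O, p • a' = a := by
  obtain ⟨L, c, h, hc, rfl⟩ := (mem_loc_iff hO.1.nm).1 ha
  obtain ⟨u, hu⟩ := hO.pb
  obtain ⟨v, hv, hun⟩ := hu.exists_un hO.2
  obtain ⟨L', c', h', hc', e⟩ := h.l2 hO.1.nm hv hun (fun _ h' => h'.ufd hO) hc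
  exact ⟨_, (mem_loc_iff hO.1.nm).2 ⟨L', c', h', hc', rfl⟩, e⟩

omit [Fact p.Prime] [CharP F p] in
theorem l12_ufd (h : GalR ⊤ L B) : UniqueFactorizationMonoid B := by
  rw [h.eq_top]
  exact (Subring.topEquiv (R := L.E)).symm.toMulEquiv.uniqueFactorizationMonoid inferInstance

theorem exists_dlt (hF : HB p F) (hp : p • a = 0) : ∃ x, dlt p F x = a := by
  obtain ⟨L, c, h, hc, rfl⟩ := (mem_loc_iff nm_top).1 (loc_top a)
  obtain ⟨m, u, hu⟩ := id hF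
  have := l12_ufd h
  obtain ⟨x, -, H⟩ := h.l1 hu hc hp
  exact ⟨x, H.eq_dlt hF⟩

theorem br_div (hF : HB p F) (a : BR F) : ∃ a', p • a' = a := by
  obtain ⟨L, c, h, hc, rfl⟩ := (mem_loc_iff nm_top).1 (loc_top a)
  obtain ⟨m, u, hu⟩ := hF
  obtain ⟨L', c', -, -, e⟩ := h.l2 nm_top hu (fun i => un_top.2 (hu.ne i))
    (fun _ h' => l12_ufd h') hc
  exact ⟨_, e⟩

end Pool.Agent.ZFd
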