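import Pool.Agent.Lib.MP_751085_ag.ZF.B.Des
import Pool.Agent.Lib.MP_751085_ag.ZF.B.Gal3
import Pool.Agent.Lib.MP_751085_ag.ZF.D.Car

/-! The correspondence between forms and classes of order `p`. -/

namespace Pool.Agent.ZFd

open scoped Classical Pool.Agent.ZCy.F
open groupCohomology
open Pool.Agent.ZCy (dd pull cl)
open Pool.Agent.ZCy.F (BR SC cls rs UC Loc)

variable {F F' : Type} [Field F] [Field F'] {p : ℕ} [Fact p.Prime] [CharP F p] [CharP F' p]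
  {L : Lv F} {c : L.G × L.G → L.Eˣ} {e : L.G → L.Eˣ} {θ : Om L.E} {x x' : Qm p F} {a a' : BR F}

theorem Rp.up (h : Rp p L c e θ x) {L' : Lv F'} {φ : F →+* F'} {j : L.E →+* L'.E}
    (hj : ∀ a, j (L.i a) = L'.i (φ a)) {r : L'.G → L.G} (hr : ∀ g x, j (r g x) = g (j x)) :
    Rp p L' (pull j r c) (fun g => Units.map (j : L.E →* L'.E) (e (r g))) (pb j θ)
      (pbQ p φ x) := by
  refine ⟨ZCy.pull_coc hr h.coc, ?_, fun g => ?_, ?_⟩
  · exact ((funext fun q => (map_pow _ _ _).symm : _ = pull j r (c ^ p)).trans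
      (congrArg _ h.pw)).trans (ZCy.pull_dd hr e)
  · refine ((pb_dlog j _).symm.trans (congrArg _ (h.lg (r g)))).trans ?_
    rw [map_sub, pb_comp, pb_comp, show j.comp (r g : L.E →+* L.E) = (g : L'.E →+* L'.E).comp j from
      RingHom.ext (hr g)]
  · rw [← pbQ_wp, h.wp, pbQ_comp, pbQ_comp, show j.comp L.i = L'.i.comp φ from RingHom.ext hj]

theorem Rep.rs (h : Rep p a x) (φ : F →+* F') : Rep p (rs φ a) (pbQ p φ x) := by
  obtain ⟨L, c, e, θ, h, rfl⟩ := h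
  obtain ⟨L', j, hj⟩ := L.exists_over φ
  obtain ⟨r, hr⟩ := L.exists_r L' hj
  exact ⟨L', _, _, _, h.up hj hr, (ZCy.F.rs_cls φ hj hr h.coc).symm⟩

theorem rep_lift (h : Rp p L c e θ x) {L' : Lv F} (j : L.E →ₐ[F] L'.E) :
    ∃ c' e' θ', Rp p L' c' e' θ' x ∧ cls F c' = cls F c := by
  obtain ⟨r, hr⟩ := L.exists_r L' (φ := RingHom.id F) (j := (j : L.E →+* L'.E)) j.commutes
  have h1 := h.up (φ := RingHom.id F) j.commutes hr
  rw [pbQ_id] at h1
  exact ⟨_, _, _, h1, (ZCy.F.rs_cls (RingHom.id F) j.commutes hr h.coc).symm.trans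
    (ZCy.F.res_id _)⟩

theorem Rep.add (h : Rep p a x) (h' : Rep p a' x') : Rep p (a + a') (x + x') := by
  obtain ⟨L, c, e, θ, h, rfl⟩ := h
  obtain ⟨L', c', e', θ', h', rfl⟩ := h'
  obtain ⟨L'', j, j', -⟩ := L.common L'
  obtain ⟨c, e, θ, h, e1⟩ := rep_lift h j
  obtain ⟨c', e', θ', h', e2⟩ := rep_lift h' j'
  refine ⟨L'', c * c', e * e', θ + θ', ⟨ZCy.coc_mul h.coc h'.coc, ?_, fun g => ?_, ?_⟩, ?_⟩
  · rw [mul_pow, h.pw, h'.pw, ZCy.dd_mul]
  · rw [Pi.mul_apply, Units.val_mul, dlog_mul (e g).ne_zero (e' g).ne_zero, h.lg, h'.lg, map_add]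
    abel
  · rw [map_add, map_add, h.wp, h'.wp]
  · rw [ZCy.F.cls_mul h.coc h'.coc, e1, e2]

theorem Rep.neg (h : Rep p a x) : Rep p (-a) (-x) := by
  obtain ⟨L, c, e, θ, h, rfl⟩ := h
  refine ⟨L, c⁻¹, e⁻¹, -θ, ⟨ZCy.coc_inv h.coc, ?_, fun g => ?_, ?_⟩, ZCy.F.cls_inv h.coc⟩
  · rw [inv_pow, h.pw, ZCy.dd_inv]
  · rw [Pi.inv_apply, Units.val_inv_eq_inv_val, dlog_inv, h.lg, map_neg]
    abel
  · rw [map_neg, map_neg, h.wp]

theorem Rep.sub (h : Rep p a x) (h' : Rep p a' x') : Rep p (a - a') (x - x') := by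
  rw [sub_eq_add_neg a, sub_eq_add_neg x]
  exact h.add h'.neg

theorem rep_wp (ω : Om F) : Rep p (0 : BR F) (wp p ω) :=
  ⟨Lv.self F, 1, 1, pb (Lv.self F).i ω, ⟨ZCy.coc_one, by rw [one_pow, ZCy.dd_one],
    fun g => dlog_one.trans (sub_eq_zero.2 ((Lv.self F).po_fix g ω)).symm, (pbQ_wp _ _).symm⟩,
    ZCy.F.cls_one⟩

theorem Rep.tors (h : Rep p a x) : p • a = 0 := by
  obtain ⟨L, c, e, θ, h, rfl⟩ := h
  rw [← ZCy.F.cls_pow h.coc, h.pw]
  exact ZCy.F.cls_dd e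

theorem rep_cob (L : Lv F) (g : L.G) (f : L.Eˣ) :
    dlog ((g • f / f : L.Eˣ) : L.E) = L.po g (dlog (f : L.E)) - dlog (f : L.E) := by
  rw [Units.val_div_eq_div_val, dlog_div (Units.ne_zero _) (Units.ne_zero _), L.dlog_smul]

theorem Rep.eq_zero (hF : HB p F) (h : Rep p a 0) : a = 0 := by
  obtain ⟨L, c, e, θ, h, rfl⟩ := h
  obtain ⟨m, u, hu⟩ := hF
  obtain ⟨f, hf, rfl⟩ := (L.pb_top hu).cartier (h.wp.trans (map_zero _))
  lift f to L.Eˣ using hf.isUnit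
  have h1 : ∀ g : L.G, ∃ s : L.Eˣ, e g = s ^ p * (g • f / f) := fun g => by
    obtain ⟨s, hs⟩ := (L.pb_top hu).dlog_eq_zero (f := (e g / (g • f / f) : L.Eˣ)) (by
      rw [Units.val_div_eq_div_val, dlog_div (Units.ne_zero _) (Units.ne_zero _), rep_cob, h.lg,
        sub_self])
    lift s to L.Eˣ using (ne_zero_pow (Fact.out : p.Prime).ne_zero (hs ▸ Units.ne_zero _)).isUnit
    exact ⟨s, div_eq_iff_eq_mul.1 (Units.ext hs)⟩
  choose s hs using h1
  have h2 := h.pw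
  rw [show e = s ^ p * fun g => g • f / f from funext hs, ZCy.dd_mul, ZCy.dd_pow,
    show (dd fun g : L.G => g • f / f) = 1 from funext fun q => by simp [dd, smul_div', mul_smul],
    mul_one] at h2
  exact (ZCy.F.cls_eq_zero h.coc).2 ⟨s, funext fun q => Units.ext
    (frobenius_inj L.E p (congrArg Units.val (congrFun h2 q)))⟩

theorem Rep.unique (hF : HB p F) (h : Rep p a x) (h' : Rep p a' x) : a = a' :=
  sub_eq_zero.1 (Rep.eq_zero hF (sub_self x ▸ h.sub h'))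

theorem Rep.ker (hF : HB p F) (h : Rep p (0 : BR F) x) : ∃ ω, wp p ω = x := by
  obtain ⟨L, c, e, θ, h, h0⟩ := h
  obtain ⟨m, u, hu⟩ := hF
  obtain ⟨s, hs⟩ := (ZCy.F.cls_eq_zero h.coc).1 h0
  replace hs : c = dd s := hs
  have h1 : dd (e / s ^ p) = 1 := by rw [ZCy.dd_div, ZCy.dd_pow, ← hs, h.pw, div_self']
  obtain ⟨f, hf⟩ := ZCy.h90 (E := L.E) (⊤ : Subgroup L.G) (e / s ^ p) fun g _ g' _ => by
    have := congrFun h1 (g, g')
    rw [ZCy.dd_apply, div_mul_eq_mul_div, Pi.one_apply, div_eq_one] at this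
    exact this.symm
  obtain ⟨ω, -, hω⟩ := (galR_top L).inv_om hu (OmS_top (θ - dlog (f : L.E))) fun g => by
    have h2 := rep_cob L g f
    rw [← show (e / s ^ p) g = g • f / f from hf g trivial, Pi.div_apply, Pi.pow_apply, Units.val_div_eq_div_val,
      dlog_div (Units.ne_zero _) (Units.ne_zero _), Units.val_pow_eq_pow_val, dlog_pow_p, sub_zero,
      h.lg] at h2
    rw [map_sub, sub_eq_sub_iff_sub_eq_sub, h2]
  exact ⟨ω, L.pbQ_inj (by rw [pbQ_wp, hω, map_sub, wp_dlog, sub_zero, h.wp])⟩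

variable {ι : Type} [Fintype ι]

omit [CharP F' p] in
theorem exists_asn (L : Lv F) {w : ι → L.E} {y : ι → F} (hw : ∀ i, w i ^ p - w i = L.i (y i)) :
    ∃ (n : L.G → ι → ℤ) (k : L.G × L.G → ι → ℤ), (∀ g i, g (w i) - w i = n g i) ∧
      ∀ g g' i, p * k (g, g') i = n g i + n g' i - n (g * g') i := by
  choose n _ hn using fun (g : L.G) i => as_diff (p := p) (w := g (w i)) (w' := w i) (by
    rw [← map_pow, ← map_sub, hw, g.commutes])
  have h1 : ∀ (q : L.G × L.G) i, (p : ℤ) ∣ n q.1 i + n q.2 i - n (q.1 * q.2) i := fun q i => by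
    rw [← CharP.intCast_eq_zero_iff L.E p]
    have := congrArg q.1 (hn q.2 i)
    rw [map_sub, map_natCast] at this
    push_cast
    rw [← this, ← hn, ← hn, AlgEquiv.mul_apply]
    ring
  choose k hk using h1
  exact ⟨fun g i => n g i, k, fun g i => (hn g i).trans (Int.cast_natCast _).symm,
    fun g g' i => (hk (g, g') i).symm⟩

theorem rep_zpow (f : F) (n : ℤ) : dlog (f ^ n) = n • dlog f := by
  obtain ⟨n, rfl | rfl⟩ := n.eq_nat_or_neg
  · rw [zpow_natCast, dlog_pow, natCast_zsmul]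
  · rw [zpow_neg, dlog_inv, zpow_natCast, dlog_pow, neg_zsmul, natCast_zsmul]

/-- sums of symbols -/
theorem rp_symb (L : Lv F) {w : ι → L.E} {y : ι → F} (b : ι → Fˣ) {n : L.G → ι → ℤ}
    {k : L.G × L.G → ι → ℤ} (hw : ∀ i, w i ^ p - w i = L.i (y i))
    (hn : ∀ g i, g (w i) - w i = n g i)
    (hk : ∀ g g' i, p * k (g, g') i = n g i + n g' i - n (g * g') i) :
    Rp p L (fun q => ∏ i, Units.map (L.i : F →* L.E) (b i) ^ k q i)
      (fun g => ∏ i, Units.map (L.i : F →* L.E) (b i) ^ n g i)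
      (∑ i, w i • dlog (L.i (b i))) (mq p (∑ i, y i • dlog (b i : F))) := by
  have h1 : ∀ (g : L.G) (m : ι → ℤ), g • ∏ i, Units.map (L.i : F →* L.E) (b i) ^ m i =
      ∏ i, Units.map (L.i : F →* L.E) (b i) ^ m i := fun g m => Units.ext (by
    rw [show ∀ v : L.Eˣ, ((g • v : L.Eˣ) : L.E) = g v from fun _ => rfl]
    simp)
  refine ⟨fun g g' j => ?_, funext fun q => ?_, fun g => ?_, ?_⟩
  · simp only [h1, ← Finset.prod_mul_distrib, ← zpow_add]
    refine Finset.prod_congr rfl fun i _ => congrArg _ (mul_left_cancel₀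
      (Int.natCast_ne_zero.2 (Fact.out : p.Prime).ne_zero) ?_)
    rw [mul_add, mul_add, hk, hk, hk, hk, mul_assoc]
    ring
  · simp only [dd, h1, Pi.pow_apply, ← Finset.prod_div_distrib, ← Finset.prod_mul_distrib,
      ← Finset.prod_pow]
    refine Finset.prod_congr rfl fun i _ => ?_
    rw [div_eq_mul_inv, ← zpow_sub, ← zpow_add, ← zpow_natCast, ← zpow_mul, mul_comm, hk]
    exact congrArg _ (by ring)
  · rw [Units.coe_prod, dlog_prod _ fun i _ => Units.ne_zero _, map_sum, ← Finset.sum_sub_distrib]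
    refine Finset.sum_congr rfl fun i _ => ?_
    rw [pb_smul, pb_dlog, Units.val_zpow_eq_zpow_val, rep_zpow, ← Int.cast_smul_eq_zsmul L.E, ← hn,
      sub_smul]
    exact congrArg (fun z => g (w i) • dlog z - _) (g.commutes _).symm
  · simp only [pbQ_mq, map_sum, wp_smul_dlog, hw, pb_smul, pb_dlog]

theorem exists_rep (hF : HB p F) (x : Qm p F) : ∃ a, Rep p a x := by
  obtain ⟨m, u, hu⟩ := hF
  obtain ⟨ω, rfl⟩ := mq_surj p x
  obtain ⟨L, j, w, hw, -⟩ := (Lv.self F).as (p := p) fun i => u i * co u i ω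
  have h1 : ∀ i, w 1 i ^ p - w 1 i = L.i (u i * co u i ω) := fun i =>
    (hw 1 i).trans (j.commutes _)
  obtain ⟨n, k, hn, hk⟩ := exists_asn L h1
  have h2 := rp_symb L (fun i => Units.mk0 (u i) (hu.ne i)) h1 hn hk
  simp only [Units.val_mk0, hu.sum_dlog] at h2
  exact ⟨_, L, _, _, _, h2, rfl⟩

theorem rep_dlt (hF : HB p F) (x : Qm p F) : Rep p (dlt p F x) x := by
  have h : ∃ δ : Qm p F →+ BR F, ∀ x, Rep p (δ x) x := by
    choose δ hδ using exists_rep hF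
    exact ⟨AddMonoidHom.mk' δ fun x y => (hδ (x + y)).unique hF ((hδ x).add (hδ y)), hδ⟩
  rw [dlt, dif_pos h]
  exact h.choose_spec x

theorem Rep.eq_dlt (hF : HB p F) (h : Rep p a x) : dlt p F x = a := (rep_dlt hF x).unique hF h

theorem dlt_eq_zero (hF : HB p F) : dlt p F x = 0 ↔ ∃ ω, wp p ω = x :=
  ⟨fun h => Rep.ker hF (h ▸ rep_dlt hF x), fun ⟨ω, e⟩ => e ▸ (rep_wp ω).eq_dlt hF⟩

theorem dlt_gam (hF : HB p F) (ω : Om F) : dlt p F (gam p ω) = dlt p F (mq p ω) := by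
  have h := (rep_dlt hF (mq p ω)).sub (rep_wp (-ω))
  rw [map_neg, sub_neg_eq_add, wp_apply, add_sub_cancel] at h
  rw [h.eq_dlt hF]
  abel

theorem rs_dlt (hF : HB p F) (hF' : HB p F') (φ : F →+* F') (x : Qm p F) :
    rs φ (dlt p F x) = dlt p F' (pbQ p φ x) := (((rep_dlt hF x).rs φ).eq_dlt hF').symm

end Pool.Agent.ZFd
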